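import Pool.Agent.RG2.Det
import Pool.Agent.RG.Par

/-!
# RG2 / Asy: few intervals of length `exp (l^a)` without rough integers
-/

set_option autoImplicit false

namespace Pool.Agent.RG2

open Finset Real Filter Topology Pool.Agent.RG

lemma Lz_small (θ δ : ℝ) (hθ : 0 < θ) (hδ : 0 < δ) :
    ∀ᶠ l : ℝ in atTop, Lz ⌊exp (l ^ θ)⌋₊ ≤ l ^ δ / 16 := by
  obtain ⟨C, hC⟩ := Lz_le
  have h1 := asy 0 δ 32 1 hδ
  have h2 : ∀ᶠ l : ℝ in atTop, 32 * |C| + 32 ≤ l ^ δ :=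
    (tendsto_rpow_atTop hδ).eventually_ge_atTop _
  have h4 : ∀ᶠ l : ℝ in atTop, 1 ≤ l ^ θ := (tendsto_rpow_atTop hθ).eventually_ge_atTop 1
  have h5 := asy 0 δ (32 * θ) 1 hδ
  filter_upwards [h1, h2, h4, h5, eventually_ge_atTop 1] with l k1 k2 k4 k5 k6
  have hl0 : 0 < l := by linarith
  simp only [rpow_zero, mul_one, pow_one] at k1 k5
  have e0 : (1 : ℝ) ≤ exp 1 := one_le_exp (by norm_num)
  have e1 : (2 : ℝ) ≤ exp 1 := by have := add_one_le_exp (1 : ℝ); linarith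
  have e2 : 2 ≤ ⌊exp (l ^ θ)⌋₊ := by
    apply Nat.le_floor
    push_cast
    exact e1.trans (exp_le_exp.2 k4)
  have e3 := hC _ e2
  have e4 : (0 : ℝ) < ⌊exp (l ^ θ)⌋₊ := by
    have : 0 < ⌊exp (l ^ θ)⌋₊ := by omega
    exact_mod_cast this
  have e5 : log (⌊exp (l ^ θ)⌋₊ : ℝ) ≤ l ^ θ := by
    rw [log_le_iff_le_exp e4]; exact floor_exp_le _
  have e6 : 0 < log (⌊exp (l ^ θ)⌋₊ : ℝ) := by
    apply log_pos
    have : (2 : ℝ) ≤ (⌊exp (l ^ θ)⌋₊ : ℝ) := by exact_mod_cast e2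
    linarith
  have e7 : log (log (⌊exp (l ^ θ)⌋₊ : ℝ)) ≤ θ * log l := by
    rw [← log_rpow hl0]; exact log_le_log e6 e5
  have e8 : C ≤ |C| := le_abs_self C
  linarith

/-- For `a < θ` and `θ + γ - 1 < a`: among the `u < X` the proportion of those for which
`[u, u + exp (l^a))` contains no `exp (l^θ)`-rough integer is at most `exp (- l^g)` for some
`g > γ`, for every `X ≥ exp l`. -/
theorem bad_small (θ γ a : ℝ) (hθ1 : θ < 1) (ha0 : 0 < a) (haθ : a < θ) (haγ : θ + γ - 1 < a) :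
    ∃ g : ℝ, γ < g ∧ ∀ᶠ l : ℝ in atTop, ∀ X : ℕ, exp l ≤ X →
      (((range X).filter (fun u => NN (Zn θ l) ⌊exp (l ^ a)⌋₊ u = 0)).card : ℝ) ≤
      exp (l / 2) + 2 * X * exp (-(l ^ g)) := by
  obtain ⟨δ, hδ0, hδ1, hδ2, hδ3⟩ : ∃ δ : ℝ, 0 < δ ∧ 6 * δ ≤ a ∧ 4 * δ ≤ 1 - θ ∧
      6 * δ ≤ a + 1 - θ - γ := by
    refine ⟨min (a / 6) (min ((1 - θ) / 4) ((a + 1 - θ - γ) / 6)), ?_, ?_, ?_, ?_⟩
    · refine lt_min (by linarith) (lt_min (by linarith) (by linarith))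
    · have := min_le_left (a / 6) (min ((1 - θ) / 4) ((a + 1 - θ - γ) / 6))
      linarith
    · have := (min_le_right (a / 6) (min ((1 - θ) / 4) ((a + 1 - θ - γ) / 6))).trans
        (min_le_left _ _)
      linarith
    · have := (min_le_right (a / 6) (min ((1 - θ) / 4) ((a + 1 - θ - γ) / 6))).trans
        (min_le_right _ _)
      linarith
  have hθ0 : 0 < θ := ha0.trans haθ
  refine ⟨γ + δ / 2, by linarith, ?_⟩
  have a1 : ∀ᶠ l : ℝ in atTop, 2 ≤ l ^ δ := (tendsto_rpow_atTop hδ0).eventually_ge_atTop _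
  have a2 : ∀ᶠ l : ℝ in atTop, 2 ≤ l ^ (1 - θ - 3 * δ) :=
    (tendsto_rpow_atTop (by linarith)).eventually_ge_atTop _
  have a3 := asy0 (a - δ) a 14 (by linarith)
  have a4 := asy0 (1 - δ) 1 300 (by linarith)
  have a5 := Lz_small θ δ hθ0 hδ0
  have a6 := asy (2 * δ) (a - 2 * δ) 122 1 (by linarith)
  have a7 := asy0 (γ + δ / 2) (γ + δ) 4 (by linarith)
  have a8 : ∀ᶠ l : ℝ in atTop, 1 ≤ log l := tendsto_log_atTop.eventually_ge_atTop 1
  filter_upwards [a1, a2, a3, a4, a5, a6, a7, a8, eventually_ge_atTop 1] with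
    l k1 k2 k3 k4 k5 k6 k7 k8 hl
  intro X hX
  have hl0 : 0 < l := by linarith
  have eDB : l ^ δ * l ^ (a - 2 * δ) = l ^ (a - δ) := by
    rw [← rpow_add hl0]; congr 1; ring
  have eD2 : (l ^ δ) ^ 2 = l ^ (2 * δ) := by
    rw [← rpow_natCast, ← rpow_mul hl0.le]; congr 1; push_cast; ring
  have eM : (l ^ δ) ^ 2 * l ^ (1 - θ - 3 * δ) * l ^ θ = l ^ (1 - δ) := by
    rw [eD2, ← rpow_add hl0, ← rpow_add hl0]; congr 1; ring
  have hB1 : 1 ≤ l ^ (a - 2 * δ) := one_le_rpow hl (by linarith)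
  have hBT : l ^ (a - 2 * δ) ≤ l ^ θ := rpow_le_rpow_of_exponent_le hl (by linarith)
  have hA1 : 1 ≤ l ^ a := one_le_rpow hl ha0.le
  have hM := bad_det l (l ^ δ) (l ^ (a - 2 * δ)) (l ^ a) (l ^ θ) (l ^ (1 - θ - 3 * δ)) X
  set D := l ^ δ with hDd
  set B := l ^ (a - 2 * δ) with hBd
  set A := l ^ a with hAd
  set T := l ^ θ with hTd
  set Q := l ^ (1 - θ - 3 * δ) with hQd
  rw [rpow_one] at k4
  have hT1 : 1 ≤ T := hB1.trans hBT
  have hQ1 : 1 ≤ Q := by linarith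
  have hD1 : 1 ≤ D := by linarith
  have hD2 : D ≤ D ^ 2 := by nlinarith
  have hD2' : 1 ≤ D ^ 2 := by linarith
  have hDQ : D ≤ D ^ 2 * Q := by nlinarith
  have m0 : D ^ 2 * Q ≤ D ^ 2 * Q * T := le_mul_of_one_le_right (by positivity) hT1
  have m1 : D * B ≤ D ^ 2 * Q * T := mul_le_mul hDQ hBT (by linarith) (by positivity)
  have m2 : D ^ 2 * Q * B ≤ D ^ 2 * Q * T := mul_le_mul_of_nonneg_left hBT (by positivity)
  have m3 : D * Q ≤ D ^ 2 * Q := mul_le_mul_of_nonneg_right hD2 (by linarith)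
  have m4 : (1 : ℝ) ≤ D ^ 2 * Q := by linarith
  have m5 : 1 ≤ D * B := by nlinarith
  have m6 : D ≤ D * B := le_mul_of_one_le_right (by linarith) hB1
  have hlog1 : D ^ 2 ≤ D ^ 2 * log l := le_mul_of_one_le_right (by positivity) k8
  rw [pow_one] at k6
  rw [← eM] at k4
  rw [← eDB] at k3
  rw [← eD2] at k6
  refine (hM k1 hB1 hBT hA1 k2 ?_ ?_ k5 ?_ ?_ ?_ ?_ hX).trans ?_
  · linarith
  · linarith
  · linarith
  · nlinarith
  · linarith
  · nlinarith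
  · apply add_le_add le_rfl
    apply mul_le_mul_of_nonneg_left _ (by positivity)
    apply exp_le_exp.2
    have e1 : Q * B = l ^ (1 - θ + a - 5 * δ) := by
      rw [hQd, hBd, ← rpow_add hl0]; congr 1; ring
    have e2 : l ^ (γ + δ) ≤ Q * B := by
      rw [e1]; exact rpow_le_rpow_of_exponent_le hl (by linarith)
    linarith

end Pool.Agent.RG2
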