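import Pool.Agent.RG2.Sieve

/-!
# RG2 / Cnt: counting the intervals without rough integers
-/

set_option autoImplicit false

namespace Pool.Agent.RG2

open Finset Pool.Agent.RG

lemma not_dvd_pd (E : Finset ℕ) (hE : ∀ q ∈ E, q.Prime) (p : ℕ) (hp : p.Prime) (h : p ∉ E) :
    ¬ p ∣ pd E := by
  intro hd
  unfold pd at hd
  obtain ⟨q, hq, hpq⟩ := (hp.prime.dvd_finsetProd_iff _).1 hd
  rw [Nat.prime_dvd_prime_iff_eq hp (hE q hq)] at hpq
  exact h (hpq ▸ hq)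

lemma holder_pow (s : Finset (Finset ℕ)) (hs : s.Nonempty) (w f : Finset ℕ → ℝ)
    (hw : ∀ E ∈ s, 0 < w E) (hf : ∀ E ∈ s, 0 ≤ f E) (K : ℕ) :
    (∑ E ∈ s, f E) ^ K ≤ (∑ E ∈ s, w E) ^ K * ∑ E ∈ s, (w E / ∑ E ∈ s, w E) * (f E / w E) ^ K := by
  set W := ∑ E ∈ s, w E with hW
  have hW0 : 0 < W := sum_pos hw hs
  have h1 := Real.pow_arith_mean_le_arith_mean_pow s (fun E => w E / W) (fun E => W * (f E / w E))
    (fun E hE => (div_pos (hw E hE) hW0).le) (by rw [← sum_div]; exact div_self hW0.ne')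
    (fun E hE => mul_nonneg hW0.le (div_nonneg (hf E hE) (hw E hE).le)) K
  have h2 : ∑ E ∈ s, w E / W * (W * (f E / w E)) = ∑ E ∈ s, f E := by
    refine sum_congr rfl fun E hE => ?_
    have := (hw E hE).ne'
    field_simp
  rw [h2] at h1
  refine h1.trans (le_of_eq ?_)
  rw [mul_sum]
  refine sum_congr rfl fun E _ => ?_
  rw [mul_pow]; ring

theorem bad_count (y z R K0 H X : ℕ) (hy : 0 < y) (hyz : y ≤ z) (hR : Odd R)
    (hH : y ^ R * y ≤ H) (hX : y ^ R * z ^ (R * ((R + 1) * K0)) ≤ X) (hV : 0 < Vt z R)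
    (hVH : ((prm 0 y).powerset.filter (fun E => E.card ≤ R)).card *
        ∏ p ∈ prm y z, (1 + 1 / (p : ℝ)) ≤ H * Vt z R / 2) :
    (((range X).filter (fun u => NN z H u = 0)).card : ℝ) ≤
      (2 * (∏ p ∈ prm 0 y, (1 + 1 / (p : ℝ))) / Vt z R) ^ ((R + 1) * K0) *
        (((z : ℝ) + 1) ^ (R * ((R + 1) * K0)) * ((y : ℝ) ^ (R * ((R + 1) * K0 + 1)) *
          (z : ℝ) ^ (R * ((R + 1) * K0)))) +
      2 * X * (8 * (∏ p ∈ prm 0 y, (1 + 1 / (p : ℝ))) *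
        ((((R * ((R + 1) * K0) : ℕ) : ℝ) + 1) ^ R * ∏ p ∈ prm y z, (1 + 1 / (p : ℝ))) /
          Vt z R) ^ ((R + 1) * K0) * (1 / (y : ℝ)) ^ K0 := by
  classical
  set K := (R + 1) * K0 with hK
  have hKe : Even K := by
    rw [hK]; exact (hR.add_one).mul_right K0
  set 𝓔 := (prm 0 y).powerset.filter (fun E => E.card ≤ R) with h𝓔
  set W := ∏ p ∈ prm 0 y, (1 + 1 / (p : ℝ)) with hW
  set G := ∏ p ∈ prm y z, (1 + 1 / (p : ℝ)) with hG
  set V := Vt z R with hVd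
  set nD := (((prm y z).powerset.filter (fun S => 1 ≤ S.card ∧ S.card ≤ R)).card : ℝ) with hnD
  have hz : 0 < z := lt_of_lt_of_le hy hyz
  have hy0 : (0 : ℝ) < y := by exact_mod_cast hy
  have hy1 : (1 : ℝ) ≤ y := by exact_mod_cast hy
  have hz0 : (0 : ℝ) < z := by exact_mod_cast hz
  have hHpos : 0 < H := lt_of_lt_of_le (by positivity) hH
  have hH0 : (0 : ℝ) < H := by exact_mod_cast hHpos
  have hW0 : 0 < W := prod_pos fun p _ => by positivity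
  have hG0 : 0 < G := prod_pos fun p _ => by positivity
  have hprE : ∀ E ∈ 𝓔, ∀ q ∈ E, q.Prime ∧ q ≤ y := by
    intro E hE q hq
    have := (mem_filter.1 hE).1
    rw [mem_powerset] at this
    have h2 := mem_prm.1 (this hq)
    exact ⟨h2.2, h2.1.2⟩
  have hpdE : ∀ E ∈ 𝓔, 0 < pd E := fun E hE => pd_pos fun q hq => (hprE E hE q hq).1
  have hpdE0 : ∀ E ∈ 𝓔, (0 : ℝ) < pd E := fun E hE => by exact_mod_cast hpdE E hE
  have hpdR : ∀ E ∈ 𝓔, pd E ≤ y ^ R := by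
    intro E hE
    refine (pd_le_pow y E fun q hq => (hprE E hE q hq).2).trans ?_
    exact Nat.pow_le_pow_right hy (mem_filter.1 hE).2
  have hnonempty : 𝓔.Nonempty := ⟨∅, by rw [h𝓔, mem_filter, mem_powerset]; simp⟩
  -- the sum of the weights
  have hWs : ∑ E ∈ 𝓔, 1 / (pd E : ℝ) ≤ W := by
    rw [hW, prod_one_add]
    have e1 : ∀ E ∈ (prm 0 y).powerset, ∏ p ∈ E, 1 / (p : ℝ) = 1 / (pd E : ℝ) := by
      intro E _
      unfold pd; push_cast; rw [prod_div_distrib, prod_const_one]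
    rw [sum_congr rfl e1]
    exact sum_le_sum_of_subset_of_nonneg (filter_subset _ _) fun E _ _ => by positivity
  -- the bound for one E
  set B := nD ^ K * ((y : ℝ) ^ (R * (K + 1)) * (z : ℝ) ^ (R * K) * (H : ℝ) ^ K) +
    2 * X * (4 * H) ^ K * (1 / (y : ℝ)) ^ K0 *
      ((((R * K : ℕ) : ℝ) + 1) ^ R * G) ^ K with hB
  have hB0 : 0 ≤ B := by rw [hB]; positivity
  have hone : ∀ E ∈ 𝓔, ∑ u ∈ range X, (|FE y z R H E u| / (1 / (pd E : ℝ))) ^ K ≤ B := by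
    intro E hE
    have h1 := moment (prm y z) (fun p hp => (mem_prm.1 hp).2) (pd E) H y z R K0 X (hpdE E hE) hy hz
      (fun p hp => not_dvd_pd E (fun q hq => (hprE E hE q hq).1) p (mem_prm.1 hp).2 (fun hpE => by
        have := (hprE E hE p hpE).2
        have := (mem_prm.1 hp).1.1
        omega))
      (fun p hp => (mem_prm.1 hp).1.1) (fun p hp => (mem_prm.1 hp).1.2)
      ((Nat.mul_le_mul_right y (hpdR E hE)).trans hH)
      ((Nat.mul_le_mul_right _ (hpdR E hE)).trans hX) (cf R E) (abs_cf_le R E)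
    rw [← hK, ← hnD, ← hG] at h1
    have e0 := hpdE0 E hE
    have h2 : ∀ u, (|FE y z R H E u| / (1 / (pd E : ℝ))) ^ K = (pd E : ℝ) ^ K * (FE y z R H E u) ^ K := by
      intro u
      rw [div_div_eq_mul_div, div_one, mul_pow, hKe.pow_abs, mul_comm]
    rw [sum_congr rfl fun u _ => h2 u, ← mul_sum]
    have h3 : ∑ u ∈ range X, (FE y z R H E u) ^ K ≤ nD ^ K * (((pd E : ℕ) : ℝ) * (z : ℝ) ^ (R * K) * (H : ℝ) ^ K) +
        2 * X * (4 * H / (pd E : ℝ)) ^ K * (1 / (y : ℝ)) ^ K0 *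
          ((((R * K : ℕ) : ℝ) + 1) ^ R * G) ^ K := h1
    refine (mul_le_mul_of_nonneg_left h3 (by positivity)).trans ?_
    rw [mul_add, hB]
    apply add_le_add
    · have e1 : ((pd E : ℝ)) ^ (K + 1) ≤ (y : ℝ) ^ (R * (K + 1)) := by
        have : (pd E) ^ (K + 1) ≤ (y ^ R) ^ (K + 1) := Nat.pow_le_pow_left (hpdR E hE) _
        rw [← pow_mul] at this
        exact_mod_cast this
      calc (pd E : ℝ) ^ K * (nD ^ K * ((pd E : ℝ) * (z : ℝ) ^ (R * K) * (H : ℝ) ^ K))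
          = nD ^ K * ((pd E : ℝ) ^ (K + 1) * (z : ℝ) ^ (R * K) * (H : ℝ) ^ K) := by ring
        _ ≤ nD ^ K * ((y : ℝ) ^ (R * (K + 1)) * (z : ℝ) ^ (R * K) * (H : ℝ) ^ K) := by gcongr
    · apply le_of_eq
      have e2 : (pd E : ℝ) ^ K * (4 * H / (pd E : ℝ)) ^ K = (4 * (H : ℝ)) ^ K := by
        rw [← mul_pow]; congr 1; field_simp
      calc (pd E : ℝ) ^ K * (2 * X * (4 * H / (pd E : ℝ)) ^ K * (1 / (y : ℝ)) ^ K0 *
            ((((R * K : ℕ) : ℝ) + 1) ^ R * G) ^ K)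
          = 2 * X * ((pd E : ℝ) ^ K * (4 * H / (pd E : ℝ)) ^ K) * (1 / (y : ℝ)) ^ K0 *
            ((((R * K : ℕ) : ℝ) + 1) ^ R * G) ^ K := by ring
        _ = _ := by rw [e2]
  -- one u
  have hu : ∀ u ∈ (range X).filter (fun u => NN z H u = 0), (H * V / 2) ^ K ≤
      (∑ E ∈ 𝓔, 1 / (pd E : ℝ)) ^ K * ∑ E ∈ 𝓔, ((1 / (pd E : ℝ)) / ∑ E ∈ 𝓔, 1 / (pd E : ℝ)) *
        (|FE y z R H E u| / (1 / (pd E : ℝ))) ^ K := by
    intro u hu
    have h0 := (mem_filter.1 hu).2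
    have h1 := main_lower y z R H u hyz hR
    rw [h0, ← h𝓔, ← hG, ← hVd] at h1
    push_cast at h1
    have h2 : H * V / 2 ≤ ∑ E ∈ 𝓔, |FE y z R H E u| := by
      have h3 : |∑ E ∈ 𝓔, (-1 : ℝ) ^ E.card * FE y z R H E u| ≤ ∑ E ∈ 𝓔, |FE y z R H E u| := by
        refine (abs_sum_le_sum_abs _ _).trans (le_of_eq (sum_congr rfl fun E _ => ?_))
        rw [abs_mul, abs_pow, abs_neg, abs_one, one_pow, one_mul]
      have h4 := (abs_le.1 (le_refl |∑ E ∈ 𝓔, (-1 : ℝ) ^ E.card * FE y z R H E u|)).1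
      linarith
    refine (pow_le_pow_left₀ (by positivity) h2 K).trans ?_
    exact holder_pow 𝓔 hnonempty (fun E => 1 / (pd E : ℝ)) (fun E => |FE y z R H E u|)
      (fun E hE => by have := hpdE0 E hE; positivity) (fun E _ => abs_nonneg _) K
  have hWs0 : 0 < ∑ E ∈ 𝓔, 1 / (pd E : ℝ) :=
    sum_pos (fun E hE => by have := hpdE0 E hE; positivity) hnonempty
  have htot : (((range X).filter (fun u => NN z H u = 0)).card : ℝ) * (H * V / 2) ^ K ≤
      W ^ K * B := by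
    calc (((range X).filter (fun u => NN z H u = 0)).card : ℝ) * (H * V / 2) ^ K
        = ∑ _u ∈ (range X).filter (fun u => NN z H u = 0), (H * V / 2) ^ K := by
          rw [sum_const, nsmul_eq_mul]
      _ ≤ ∑ u ∈ (range X).filter (fun u => NN z H u = 0),
          (∑ E ∈ 𝓔, 1 / (pd E : ℝ)) ^ K * ∑ E ∈ 𝓔, ((1 / (pd E : ℝ)) / ∑ E ∈ 𝓔, 1 / (pd E : ℝ)) *
            (|FE y z R H E u| / (1 / (pd E : ℝ))) ^ K := sum_le_sum hu
      _ ≤ ∑ u ∈ range X,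
          (∑ E ∈ 𝓔, 1 / (pd E : ℝ)) ^ K * ∑ E ∈ 𝓔, ((1 / (pd E : ℝ)) / ∑ E ∈ 𝓔, 1 / (pd E : ℝ)) *
            (|FE y z R H E u| / (1 / (pd E : ℝ))) ^ K := by
          apply sum_le_sum_of_subset_of_nonneg (filter_subset _ _)
          intro u _ _
          exact mul_nonneg (by positivity) (sum_nonneg fun E _ => by positivity)
      _ = (∑ E ∈ 𝓔, 1 / (pd E : ℝ)) ^ K * ∑ E ∈ 𝓔, ((1 / (pd E : ℝ)) / ∑ E ∈ 𝓔, 1 / (pd E : ℝ)) *
            ∑ u ∈ range X, (|FE y z R H E u| / (1 / (pd E : ℝ))) ^ K := by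
          rw [← mul_sum, sum_comm]
          congr 1
          exact sum_congr rfl fun E _ => by rw [mul_sum]
      _ ≤ (∑ E ∈ 𝓔, 1 / (pd E : ℝ)) ^ K * ∑ E ∈ 𝓔, ((1 / (pd E : ℝ)) / ∑ E ∈ 𝓔, 1 / (pd E : ℝ)) *
            B := by
          apply mul_le_mul_of_nonneg_left _ (by positivity)
          exact sum_le_sum fun E hE => mul_le_mul_of_nonneg_left (hone E hE) (by positivity)
      _ = (∑ E ∈ 𝓔, 1 / (pd E : ℝ)) ^ K * B := by
          rw [← sum_mul, ← sum_div, div_self hWs0.ne', one_mul]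
      _ ≤ W ^ K * B := by
          apply mul_le_mul_of_nonneg_right _ hB0
          exact pow_le_pow_left₀ hWs0.le hWs K
  have hHV : 0 < (H * V / 2) ^ K := by positivity
  rw [← le_div_iff₀ hHV] at htot
  refine htot.trans ?_
  have hnDle : nD ≤ ((z : ℝ) + 1) ^ R := by
    have h1 : ((prm y z).powerset.filter (fun S => 1 ≤ S.card ∧ S.card ≤ R)).card ≤
        ((prm y z).powerset.filter (fun S => S.card ≤ R)).card := by
      apply card_le_card
      intro S hS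
      rw [mem_filter] at hS ⊢
      exact ⟨hS.1, hS.2.2⟩
    have h2 := h1.trans (card_small (prm y z) R)
    have h3 : (prm y z).card ≤ z := by
      unfold prm
      refine (card_filter_le _ _).trans ?_
      rw [Nat.card_Ioc]; omega
    have h4 : ((prm y z).card + 1) ^ R ≤ (z + 1) ^ R := Nat.pow_le_pow_left (by omega) R
    rw [hnD]
    exact_mod_cast h2.trans h4
  have hnD0 : 0 ≤ nD := by rw [hnD]; positivity
  have e1 : W ^ K * B / (H * V / 2) ^ K =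
      (2 * W / V) ^ K * (nD ^ K * ((y : ℝ) ^ (R * (K + 1)) * (z : ℝ) ^ (R * K))) +
      2 * X * (8 * W * ((((R * K : ℕ) : ℝ) + 1) ^ R * G) / V) ^ K * (1 / (y : ℝ)) ^ K0 := by
    rw [hB, div_eq_iff hHV.ne', mul_add, add_mul]
    congr 1
    · have : (2 * W / V) ^ K * (H * V / 2) ^ K = W ^ K * (H : ℝ) ^ K := by
        rw [← mul_pow, ← mul_pow]; congr 1; field_simp
      calc W ^ K * (nD ^ K * ((y : ℝ) ^ (R * (K + 1)) * (z : ℝ) ^ (R * K) * (H : ℝ) ^ K))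
          = (W ^ K * (H : ℝ) ^ K) * (nD ^ K * ((y : ℝ) ^ (R * (K + 1)) * (z : ℝ) ^ (R * K))) := by
            ring
        _ = _ := by rw [← this]; ring
    · have : (8 * W * ((((R * K : ℕ) : ℝ) + 1) ^ R * G) / V) ^ K * (H * V / 2) ^ K =
          W ^ K * (4 * (H : ℝ)) ^ K * ((((R * K : ℕ) : ℝ) + 1) ^ R * G) ^ K := by
        rw [← mul_pow, ← mul_pow, ← mul_pow]; congr 1; field_simp; ring
      calc W ^ K * (2 * X * (4 * (H : ℝ)) ^ K * (1 / (y : ℝ)) ^ K0 *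
            ((((R * K : ℕ) : ℝ) + 1) ^ R * G) ^ K)
          = 2 * X * (W ^ K * (4 * (H : ℝ)) ^ K * ((((R * K : ℕ) : ℝ) + 1) ^ R * G) ^ K) *
            (1 / (y : ℝ)) ^ K0 := by ring
        _ = _ := by rw [← this]; ring
  rw [e1]
  have e2 : nD ^ K ≤ ((z : ℝ) + 1) ^ (R * K) := by
    refine (pow_le_pow_left₀ hnD0 hnDle K).trans (le_of_eq ?_)
    rw [← pow_mul]
  have e3 : (2 * W / V) ^ K * (nD ^ K * ((y : ℝ) ^ (R * (K + 1)) * (z : ℝ) ^ (R * K))) ≤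
      (2 * W / V) ^ K * (((z : ℝ) + 1) ^ (R * K) *
        ((y : ℝ) ^ (R * (K + 1)) * (z : ℝ) ^ (R * K))) := by
    apply mul_le_mul_of_nonneg_left _ (by positivity)
    exact mul_le_mul_of_nonneg_right e2 (by positivity)
  linarith

end Pool.Agent.RG2
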