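import Pool.Agent.RG2.Vl

/-!
# RG2 / Det: the count with explicit parameters
-/

set_option autoImplicit false

namespace Pool.Agent.RG2

open Finset Real Filter Pool.Agent.RG

lemma floor_exp_ge (t : ℝ) (ht : 1 ≤ t) : exp (t - 1) ≤ (⌊exp t⌋₊ : ℝ) := by
  have h1 : exp t < ⌊exp t⌋₊ + 1 := Nat.lt_floor_add_one _
  have h2 : exp t = exp (t - 1) * exp 1 := by rw [← exp_add]; congr 1; ring
  have h3 : 1 ≤ exp (t - 1) := one_le_exp (by linarith)
  have h4 : (2 : ℝ) ≤ exp 1 := by have := add_one_le_exp (1 : ℝ); linarith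
  nlinarith

lemma floor_exp_le (t : ℝ) : (⌊exp t⌋₊ : ℝ) ≤ exp t := Nat.floor_le (exp_pos t).le

lemma floor_exp_pos (t : ℝ) (ht : 1 ≤ t) : 0 < ⌊exp t⌋₊ := by
  have h := floor_exp_ge t ht
  have h2 := exp_pos (t - 1)
  have : (0 : ℝ) < ⌊exp t⌋₊ := by linarith
  exact_mod_cast this

lemma prm_card_le (y : ℕ) : (prm 0 y).card ≤ y := by
  unfold prm
  refine (card_filter_le _ _).trans ?_
  simp

theorem bad_det (l D B A T Q : ℝ) (X : ℕ) (hD : 2 ≤ D) (hB : 1 ≤ B) (hBT : B ≤ T) (hA : 1 ≤ A)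
    (hQ : 2 ≤ Q)
    (h2 : 6 * D * B ≤ A) (h3 : 5 * D * B + 30 * D ^ 2 * Q * T ≤ l)
    (h4 : Lz ⌊exp T⌋₊ ≤ D / 16)
    (h5 : 5 * D * (B + 1) + 2 * D + 2 ≤ A)
    (h6 : 6 * D * Q * (1 + 2 * D) + 30 * D ^ 2 * Q * (2 * T + 1) + (30 * D ^ 2 * Q + 5 * D) * B
      ≤ l / 2)
    (h7 : 30 * D ^ 2 * Q + 1 ≤ l)
    (h8 : 6 * D * (3 + 2 * D + 5 * D * log l) + 1 ≤ B / 2) (hX : exp l ≤ X) :
    (((range X).filter (fun u => NN ⌊exp T⌋₊ ⌊exp A⌋₊ u = 0)).card : ℝ) ≤
      exp (l / 2) + 2 * X * exp (-(Q * B / 4)) := by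
  set R := 2 * ⌈D⌉₊ + 1 with hRd
  set y := ⌊exp B⌋₊ with hyd
  set z := ⌊exp T⌋₊ with hzd
  set H := ⌊exp A⌋₊ with hHd
  set K0 := ⌊Q⌋₊ with hK0d
  set K := (R + 1) * K0 with hKd
  have hD0 : (0 : ℝ) < D := by linarith
  have hT1 : 1 ≤ T := hB.trans hBT
  have hRodd : Odd R := ⟨⌈D⌉₊, rfl⟩
  have hRlo : 2 * D + 1 ≤ R := by
    rw [hRd]; push_cast; linarith [Nat.le_ceil D]
  have hRhi : (R : ℝ) ≤ 5 * D := by
    rw [hRd]; push_cast; linarith [Nat.ceil_lt_add_one hD0.le]
  have hR1 : (R : ℝ) + 1 ≤ 6 * D := by linarith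
  have hRD : (R : ℝ) + 1 ≤ 5 * D := by
    rw [hRd]; push_cast; linarith [Nat.ceil_lt_add_one hD0.le]
  have hK0lo : Q / 2 ≤ K0 := by
    have := Nat.lt_floor_add_one Q
    rw [hK0d]; linarith
  have hK0hi : (K0 : ℝ) ≤ Q := Nat.floor_le (by linarith)
  have hKhi : (K : ℝ) ≤ 6 * D * Q := by
    rw [hKd]; push_cast
    exact mul_le_mul hR1 hK0hi (Nat.cast_nonneg _) (by linarith)
  have hRKhi : ((R * K : ℕ) : ℝ) ≤ 30 * D ^ 2 * Q := by
    push_cast
    calc (R : ℝ) * K ≤ (5 * D) * (6 * D * Q) :=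
          mul_le_mul hRhi hKhi (Nat.cast_nonneg _) (by linarith)
      _ = _ := by ring
  have hy0 : 0 < y := floor_exp_pos B hB
  have hyr : (0 : ℝ) < y := by exact_mod_cast hy0
  have hyhi : (y : ℝ) ≤ exp B := floor_exp_le B
  have hylo : exp (B - 1) ≤ y := floor_exp_ge B hB
  have hzhi : (z : ℝ) ≤ exp T := floor_exp_le T
  have hz0 : 0 < z := floor_exp_pos T hT1
  have hyz : y ≤ z := Nat.floor_le_floor (exp_le_exp.2 hBT)
  have hHlo : exp (A - 1) ≤ H := floor_exp_ge A hA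
  -- the products
  have hL0 : 0 ≤ Lz z := sum_nonneg fun p _ => by positivity
  have hW := (W_le y z hyz).trans (exp_le_exp.2 h4)
  have hG := (G_le y z hyz).trans (exp_le_exp.2 h4)
  have hW0 : 0 < ∏ p ∈ prm 0 y, (1 + 1 / (p : ℝ)) := prod_pos fun p _ => by positivity
  have hG0 : 0 < ∏ p ∈ prm y z, (1 + 1 / (p : ℝ)) := prod_pos fun p _ => by positivity
  have hVlo : exp (-D) ≤ Vt z R := by
    refine le_trans ?_ (Vt_ge z R hRodd)
    have e1 : exp (-D / 8) ≤ exp (-2 * Lz z) := exp_le_exp.2 (by linarith)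
    have e2 : exp (8 * Lz z - 2 * (R + 1)) ≤ exp (-D) := exp_le_exp.2 (by linarith)
    have e3 : 2 * exp (-D) ≤ exp (-D / 8) := by
      have e4 : exp (-D / 8) = exp (-D) * exp (7 * D / 8) := by
        rw [← exp_add]; congr 1; ring
      have e5 : 2 ≤ exp (7 * D / 8) := by
        have := add_one_le_exp (7 * D / 8); linarith
      rw [e4, mul_comm]
      exact mul_le_mul_of_nonneg_left e5 (exp_pos _).le
    linarith
  have hV0 : 0 < Vt z R := lt_of_lt_of_le (exp_pos _) hVlo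
  have hVinv : 1 / Vt z R ≤ exp D := by
    rw [div_le_iff₀ hV0]
    calc (1 : ℝ) = exp D * exp (-D) := by rw [← exp_add]; simp
      _ ≤ _ := mul_le_mul_of_nonneg_left hVlo (exp_pos _).le
  set W := ∏ p ∈ prm 0 y, (1 + 1 / (p : ℝ)) with hWd
  set G := ∏ p ∈ prm y z, (1 + 1 / (p : ℝ)) with hGd
  -- powers
  have hypow : ∀ n : ℕ, (y : ℝ) ^ n ≤ exp (n * B) := fun n => by
    rw [exp_nat_mul]; exact pow_le_pow_left₀ hyr.le hyhi n
  have hzpow : ∀ n : ℕ, (z : ℝ) ^ n ≤ exp (n * T) := fun n => by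
    rw [exp_nat_mul]; exact pow_le_pow_left₀ (Nat.cast_nonneg _) hzhi n
  have hz1pow : ∀ n : ℕ, ((z : ℝ) + 1) ^ n ≤ exp (n * (T + 1)) := fun n => by
    rw [exp_nat_mul]
    refine pow_le_pow_left₀ (by positivity) ?_ n
    have e1 : exp (T + 1) = exp T * exp 1 := exp_add _ _
    have e2 : (2 : ℝ) ≤ exp 1 := by have := add_one_le_exp (1 : ℝ); linarith
    have e3 : 1 ≤ exp T := one_le_exp (by linarith)
    nlinarith
  have hy1pow : ∀ n : ℕ, ((y : ℝ) + 1) ^ n ≤ exp (n * (B + 1)) := fun n => by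
    rw [exp_nat_mul]
    refine pow_le_pow_left₀ (by positivity) ?_ n
    have e1 : exp (B + 1) = exp B * exp 1 := exp_add _ _
    have e2 : (2 : ℝ) ≤ exp 1 := by have := add_one_le_exp (1 : ℝ); linarith
    have e3 : 1 ≤ exp B := one_le_exp (by linarith)
    nlinarith
  have hHH : y ^ R * y ≤ H := by
    apply Nat.le_floor
    push_cast
    calc (y : ℝ) ^ R * y = (y : ℝ) ^ (R + 1) := by ring
      _ ≤ exp ((R + 1 : ℕ) * B) := hypow _
      _ ≤ exp A := exp_le_exp.2 (by
        push_cast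
        calc ((R : ℝ) + 1) * B ≤ 6 * D * B := mul_le_mul_of_nonneg_right hR1 (by linarith)
          _ ≤ A := h2)
  have hXX : y ^ R * z ^ (R * ((R + 1) * K0)) ≤ X := by
    have : ((y ^ R * z ^ (R * ((R + 1) * K0)) : ℕ) : ℝ) ≤ X := by
      push_cast
      calc (y : ℝ) ^ R * (z : ℝ) ^ (R * ((R + 1) * K0)) ≤ exp (R * B) * exp ((R * K : ℕ) * T) :=
            mul_le_mul (hypow _) (hzpow _) (by positivity) (exp_pos _).le
        _ = exp (R * B + (R * K : ℕ) * T) := by rw [exp_add]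
        _ ≤ exp l := exp_le_exp.2 (by
            have e1 : (R : ℝ) * B ≤ 5 * D * B := mul_le_mul_of_nonneg_right hRhi (by linarith)
            have e2 : ((R * K : ℕ) : ℝ) * T ≤ 30 * D ^ 2 * Q * T :=
              mul_le_mul_of_nonneg_right hRKhi (by linarith)
            linarith)
        _ ≤ X := hX
    exact_mod_cast this
  have hVH : ((((prm 0 y).powerset.filter (fun E => E.card ≤ R)).card : ℕ) : ℝ) * G ≤
      H * Vt z R / 2 := by
    have e1 : ((((prm 0 y).powerset.filter (fun E => E.card ≤ R)).card : ℕ) : ℝ) ≤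
        exp (5 * D * (B + 1)) := by
      calc ((((prm 0 y).powerset.filter (fun E => E.card ≤ R)).card : ℕ) : ℝ) ≤
            (((prm 0 y).card + 1 : ℕ) : ℝ) ^ R := by exact_mod_cast card_small (prm 0 y) R
        _ ≤ ((y : ℝ) + 1) ^ R := by
            refine pow_le_pow_left₀ (Nat.cast_nonneg _) ?_ R
            push_cast
            have : ((prm 0 y).card : ℝ) ≤ y := by exact_mod_cast prm_card_le y
            linarith
        _ ≤ exp (R * (B + 1)) := hy1pow R
        _ ≤ _ := exp_le_exp.2 (mul_le_mul_of_nonneg_right hRhi (by linarith))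
    have e2 : exp (A - 1) * exp (-D) ≤ H * Vt z R :=
      mul_le_mul hHlo hVlo (exp_pos _).le (Nat.cast_nonneg _)
    have e3 : exp (5 * D * (B + 1)) * exp (D / 16) ≤ exp (A - 1) * exp (-D) / 2 := by
      rw [← exp_add, ← exp_add, le_div_iff₀ (by norm_num)]
      have e4 : (2 : ℝ) ≤ exp 1 := by have := add_one_le_exp (1 : ℝ); linarith
      calc exp (5 * D * (B + 1) + D / 16) * 2 ≤ exp (5 * D * (B + 1) + D / 16) * exp 1 :=
            mul_le_mul_of_nonneg_left e4 (exp_pos _).le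
        _ = exp (5 * D * (B + 1) + D / 16 + 1) := by rw [← exp_add]
        _ ≤ _ := exp_le_exp.2 (by linarith)
    calc _ ≤ exp (5 * D * (B + 1)) * exp (D / 16) :=
          mul_le_mul e1 hG hG0.le (exp_pos _).le
      _ ≤ exp (A - 1) * exp (-D) / 2 := e3
      _ ≤ _ := by linarith
  have hmain := bad_count y z R K0 H X hy0 hyz hRodd hHH hXX hV0 hVH
  rw [← hKd] at hmain
  refine hmain.trans (add_le_add ?_ ?_)
  · -- the first term
    have e1 : 2 * W / Vt z R ≤ exp (1 + 2 * D) := by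
      have e2 : (2 : ℝ) ≤ exp 1 := by have := add_one_le_exp (1 : ℝ); linarith
      calc 2 * W / Vt z R = 2 * W * (1 / Vt z R) := by ring
        _ ≤ exp 1 * exp (D / 16) * exp D := by
            apply mul_le_mul _ hVinv (by positivity) (by positivity)
            exact mul_le_mul e2 hW hW0.le (exp_pos _).le
        _ = exp (1 + D / 16 + D) := by rw [← exp_add, ← exp_add]
        _ ≤ _ := exp_le_exp.2 (by linarith)
    have e3 : (2 * W / Vt z R) ^ K ≤ exp (K * (1 + 2 * D)) := by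
      rw [exp_nat_mul]
      exact pow_le_pow_left₀ (by positivity) e1 K
    calc _ ≤ exp (K * (1 + 2 * D)) * (exp ((R * K : ℕ) * (T + 1)) *
          (exp ((R * (K + 1) : ℕ) * B) * exp ((R * K : ℕ) * T))) := by
            apply mul_le_mul e3 _ (by positivity) (exp_pos _).le
            apply mul_le_mul (hz1pow _) _ (by positivity) (exp_pos _).le
            exact mul_le_mul (hypow _) (hzpow _) (by positivity) (exp_pos _).le
      _ = exp (K * (1 + 2 * D) + ((R * K : ℕ) * (T + 1) +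
          ((R * (K + 1) : ℕ) * B + (R * K : ℕ) * T))) := by
            rw [← exp_add, ← exp_add, ← exp_add]
      _ ≤ exp (l / 2) := by
            apply exp_le_exp.2
            have g1 : (K : ℝ) * (1 + 2 * D) ≤ 6 * D * Q * (1 + 2 * D) :=
              mul_le_mul_of_nonneg_right hKhi (by linarith)
            have g2 : ((R * K : ℕ) : ℝ) * (T + 1) ≤ 30 * D ^ 2 * Q * (T + 1) :=
              mul_le_mul_of_nonneg_right hRKhi (by linarith)
            have g3 : ((R * K : ℕ) : ℝ) * T ≤ 30 * D ^ 2 * Q * T :=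
              mul_le_mul_of_nonneg_right hRKhi (by linarith)
            have g4 : ((R * (K + 1) : ℕ) : ℝ) * B ≤ (30 * D ^ 2 * Q + 5 * D) * B := by
              apply mul_le_mul_of_nonneg_right _ (by linarith)
              have : ((R * (K + 1) : ℕ) : ℝ) = ((R * K : ℕ) : ℝ) + R := by push_cast; ring
              rw [this]; linarith
            linarith
  · -- the second term
    have hlogl : log (((R * K : ℕ) : ℝ) + 1) ≤ log l := by
      apply log_le_log (by positivity)
      linarith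
    have hlogl0 : 0 ≤ log (((R * K : ℕ) : ℝ) + 1) := log_nonneg (by
      linarith [(Nat.cast_nonneg (R * K) : (0 : ℝ) ≤ ((R * K : ℕ) : ℝ))])
    have f1 : (((R * K : ℕ) : ℝ) + 1) ^ R ≤ exp (5 * D * log l) := by
      have : (((R * K : ℕ) : ℝ) + 1) ^ R = exp (R * log (((R * K : ℕ) : ℝ) + 1)) := by
        rw [exp_nat_mul, exp_log (by positivity)]
      rw [this]
      apply exp_le_exp.2
      exact mul_le_mul hRhi hlogl hlogl0 (by linarith)
    have f2 : 8 * W * ((((R * K : ℕ) : ℝ) + 1) ^ R * G) / Vt z R ≤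
        exp (3 + 2 * D + 5 * D * log l) := by
      have e2 : (8 : ℝ) ≤ exp 3 := by
        have e3 : (2 : ℝ) ≤ exp 1 := by have := add_one_le_exp (1 : ℝ); linarith
        have e4 : exp (3 : ℝ) = exp 1 ^ 3 := by rw [← exp_nat_mul]; norm_num
        rw [e4]
        calc (8 : ℝ) = 2 ^ 3 := by norm_num
          _ ≤ _ := pow_le_pow_left₀ (by norm_num) e3 3
      calc 8 * W * ((((R * K : ℕ) : ℝ) + 1) ^ R * G) / Vt z R =
            8 * W * ((((R * K : ℕ) : ℝ) + 1) ^ R * G) * (1 / Vt z R) := by ring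
        _ ≤ exp 3 * exp (D / 16) * (exp (5 * D * log l) * exp (D / 16)) * exp D := by
            apply mul_le_mul _ hVinv (by positivity) (by positivity)
            apply mul_le_mul _ _ (by positivity) (by positivity)
            · exact mul_le_mul e2 hW hW0.le (exp_pos _).le
            · exact mul_le_mul f1 hG hG0.le (exp_pos _).le
        _ = exp (3 + D / 16 + (5 * D * log l + D / 16) + D) := by
            rw [← exp_add, ← exp_add, ← exp_add, ← exp_add]
        _ ≤ _ := exp_le_exp.2 (by linarith)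
    have hin0 : 0 ≤ 3 + 2 * D + 5 * D * log l := by
      have : 0 ≤ 5 * D * log l := mul_nonneg (by linarith) (hlogl0.trans hlogl)
      linarith
    have f3 : (8 * W * ((((R * K : ℕ) : ℝ) + 1) ^ R * G) / Vt z R) ^ K ≤
        exp (K0 * (6 * D * (3 + 2 * D + 5 * D * log l))) := by
      calc _ ≤ exp (3 + 2 * D + 5 * D * log l) ^ K :=
            pow_le_pow_left₀ (by positivity) f2 K
        _ = exp (K * (3 + 2 * D + 5 * D * log l)) := by rw [exp_nat_mul]
        _ ≤ _ := by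
            apply exp_le_exp.2
            rw [hKd]; push_cast
            have : ((R : ℝ) + 1) * (3 + 2 * D + 5 * D * log l) ≤
                6 * D * (3 + 2 * D + 5 * D * log l) := mul_le_mul_of_nonneg_right hR1 hin0
            have := mul_le_mul_of_nonneg_left this (Nat.cast_nonneg K0 : (0 : ℝ) ≤ K0)
            linarith
    have f4 : (1 / (y : ℝ)) ^ K0 ≤ exp (K0 * (-(B - 1))) := by
      rw [exp_nat_mul]
      apply pow_le_pow_left₀ (by positivity)
      rw [exp_neg, ← one_div]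
      exact one_div_le_one_div_of_le (exp_pos _) hylo
    have f5 : exp (K0 * (6 * D * (3 + 2 * D + 5 * D * log l))) * exp (K0 * (-(B - 1))) ≤
        exp (-(Q * B / 4)) := by
      rw [← exp_add, ← mul_add]
      apply exp_le_exp.2
      have g1 : 6 * D * (3 + 2 * D + 5 * D * log l) + -(B - 1) ≤ -(B / 2) := by linarith
      have g2 := mul_le_mul_of_nonneg_left g1 (Nat.cast_nonneg K0 : (0 : ℝ) ≤ K0)
      have g3 : Q / 2 * (B / 2) ≤ K0 * (B / 2) := mul_le_mul_of_nonneg_right hK0lo (by linarith)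
      linarith
    calc 2 * (X : ℝ) * (8 * W * ((((R * K : ℕ) : ℝ) + 1) ^ R * G) / Vt z R) ^ K *
          (1 / (y : ℝ)) ^ K0 = 2 * X * ((8 * W * ((((R * K : ℕ) : ℝ) + 1) ^ R * G) / Vt z R) ^ K *
          (1 / (y : ℝ)) ^ K0) := by ring
      _ ≤ 2 * X * (exp (K0 * (6 * D * (3 + 2 * D + 5 * D * log l))) * exp (K0 * (-(B - 1)))) := by
          apply mul_le_mul_of_nonneg_left _ (by positivity)
          exact mul_le_mul f3 f4 (by positivity) (exp_pos _).le
      _ ≤ _ := mul_le_mul_of_nonneg_left f5 (by positivity)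

end Pool.Agent.RG2
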