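import Pool.Agent.RG2.UpL
import Pool.Agent.RG.Final

/-!
# RG2 / Fin2: the largest gap between rough numbers in almost all windows
-/

set_option autoImplicit false

namespace Pool.Agent.RG2

open Finset Real Filter Topology Pool.Agent.RG

lemma emp_shift (z A B g : ℝ) (n S : ℕ) (h : Emp z A B g (n + S)) :
    Emp z (A + S) (B + S) g n := by
  obtain ⟨s, h1, h2, h3⟩ := h
  refine ⟨s + S, by push_cast; linarith, by push_cast; linarith, ?_⟩
  intro t ht1 ht2 hr
  obtain ⟨k, rfl⟩ : ∃ k, t = k + S := ⟨t - S, by omega⟩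
  push_cast at ht2
  refine h3 k (by omega) (by linarith) ?_
  rwa [show n + S + k = n + (k + S) by ring]

open Classical in
lemma count_shift (P : ℕ → Prop) (S X : ℕ) :
    ((Icc 1 X).filter (fun n => ¬ P (n + S))).card ≤
      ((Icc 1 X).filter (fun n => ¬ P n)).card + S := by
  have h1 : ((Icc 1 X).filter (fun n => ¬ P (n + S))).image (fun n => n + S) ⊆
      ((Icc 1 X).filter (fun n => ¬ P n)) ∪ Ioc X (X + S) := by
    intro m hm
    rw [mem_image] at hm
    obtain ⟨n, hn, rfl⟩ := hm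
    rw [mem_filter, mem_Icc] at hn
    rw [mem_union, mem_filter, mem_Icc, mem_Ioc]
    rcases le_or_gt (n + S) X with h | h
    · left; exact ⟨⟨by omega, h⟩, hn.2⟩
    · right; omega
  have h2 := (card_le_card h1).trans (card_union_le _ _)
  rw [card_image_of_injective _ (fun a b h => by simpa using h), Nat.card_Ioc] at h2
  omega

open Classical in
/-- Lower half for `θ + γ ≥ 1`. -/
theorem gap_long (θ γ c ε : ℝ) (hθ0 : 1 / 2 ≤ θ) (hθ1 : θ < 1) (hγ0 : 0 < γ) (hγ1 : γ < 1)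
    (hsum : 1 ≤ θ + γ) (hc : 0 < c) (hε : 0 < ε) :
    Tendsto (fun X : ℕ => (((Icc 1 X).filter (fun n : ℕ =>
      ¬ GapIn (exp (log X ^ θ)) (exp (c * log X ^ γ)) (log X ^ (1 - ε))
        (exp (log X ^ (θ + γ - 1 + ε))) n)).card : ℝ) / X) atTop (𝓝 0) := by
  obtain ⟨η, hη0, hη1, hη2⟩ : ∃ η : ℝ, 0 < η ∧ η ≤ ε / 2 ∧ η ≤ (1 - θ) / 2 :=
    ⟨min (ε / 2) ((1 - θ) / 2), lt_min (by linarith) (by linarith), min_le_left _ _,
      min_le_right _ _⟩
  have hP : Par θ (1 - θ - η) (η / 8) (1 - η / 2) :=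
    ⟨by linarith, by linarith, by linarith, by linarith, by linarith⟩
  have hL := lower_half θ (1 - θ - η) (η / 8) _ hP
  have hU := dens_long θ γ (θ + γ - 1 + η) c (by linarith) hθ1 hγ0 hγ1 (by linarith)
    (by linarith) hc
  set a := θ + γ - 1 + η with ha
  set b := (a + γ) / 2 with hb
  have hab : a < b := by rw [hb]; linarith
  have hbγ : b < γ := by rw [hb]; linarith
  have hb0 : 0 < b := by linarith
  have hlog : Tendsto (fun X : ℕ => log (X : ℝ)) atTop atTop :=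
    tendsto_log_atTop.comp tendsto_natCast_atTop_atTop
  have hlim : Tendsto (fun X : ℕ => 2 * exp (-(log (X : ℝ)) ^ b)) atTop (𝓝 0) := by
    have e1 : Tendsto (fun x : ℝ => 2 * exp (-x ^ b)) atTop (𝓝 0) := by
      have := (tendsto_exp_neg_atTop_nhds_zero.comp (tendsto_rpow_atTop hb0)).const_mul 2
      simpa using this
    exact e1.comp hlog
  have hsum := (hU.add hL).add hlim
  rw [add_zero, add_zero] at hsum
  have a1 := asy0 a b 2 hab
  have a2 := asy0 (1 - θ - η - η / 8 / 4) γ (2 / c) (by linarith)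
  have a3 := asy0 b γ (2 / c) hbγ
  have a4 := asy0 a γ (2 / c) (by linarith)
  have a5 := asy0 a (θ + γ - 1 + ε) 2 (by linarith)
  have a6 := asy0 b 1 2 (by linarith)
  have a7 : ∀ᶠ l : ℝ in atTop, 6 / c ≤ l ^ γ := (tendsto_rpow_atTop hγ0).eventually_ge_atTop _
  refine squeeze_zero' (Eventually.of_forall fun X => by positivity) ?_ hsum
  filter_upwards [hlog.eventually a1, hlog.eventually a2, hlog.eventually a3,
    hlog.eventually a4, hlog.eventually a5, hlog.eventually a6, hlog.eventually a7,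
    hlog.eventually_ge_atTop 1, eventually_ge_atTop 1]
    with X k1 k2 k3 k4 k5 k6 k7 k8 k9
  have hX0 : (0 : ℝ) < X := by exact_mod_cast k9
  have hexp : exp (log (X : ℝ)) = X := exp_log hX0
  set l := log (X : ℝ) with hl
  rw [rpow_one] at k6
  have e2 : (2 : ℝ) ≤ exp 1 := by have := add_one_le_exp (1 : ℝ); linarith
  have hla : 1 ≤ l ^ a := one_le_rpow k8 (by linarith)
  have hlb : 1 ≤ l ^ b := one_le_rpow k8 (by linarith)
  -- the shift
  set S := ⌈exp (l ^ b)⌉₊ with hS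
  have hS1 : exp (l ^ b) ≤ S := Nat.le_ceil _
  have hS2 : (S : ℝ) ≤ exp (l ^ b) + 1 := (Nat.ceil_lt_add_one (exp_pos _).le).le
  have hc1 : ∀ x : ℝ, 2 / c * x ≤ l ^ γ → 8 * exp x ≤ exp (c * l ^ γ) := by
    intro x hx
    have m1 : 2 * x ≤ c * l ^ γ := by
      rw [div_mul_eq_mul_div, div_le_iff₀ hc] at hx; linarith
    have m2 : 6 ≤ c * l ^ γ := by rw [div_le_iff₀ hc] at k7; linarith
    have m3 : x + 3 ≤ c * l ^ γ := by linarith
    have m4 : (8 : ℝ) ≤ exp 3 := by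
      have e4 : exp (3 : ℝ) = exp 1 ^ 3 := by rw [← exp_nat_mul]; norm_num
      rw [e4]
      calc (8 : ℝ) = 2 ^ 3 := by norm_num
        _ ≤ _ := pow_le_pow_left₀ (by norm_num) e2 3
    calc 8 * exp x ≤ exp 3 * exp x := mul_le_mul_of_nonneg_right m4 (exp_pos _).le
      _ = exp (3 + x) := by rw [exp_add]
      _ ≤ _ := exp_le_exp.2 (by linarith)
  have c1 := hc1 _ k2
  have c2 := hc1 _ k3
  have c3 := hc1 _ k4
  have c4 := hc1 0 (by rw [mul_zero]; positivity)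
  rw [exp_zero] at c4
  have hdouble : ∀ x y : ℝ, 1 ≤ x → 2 * x ≤ y → exp x + 1 ≤ exp y := by
    intro x y hx hxy
    have m1 : exp x * exp 1 ≤ exp y := by
      rw [← exp_add]; exact exp_le_exp.2 (by linarith)
    have m2 : 1 ≤ exp x := one_le_exp (by linarith)
    nlinarith
  have d1 := hdouble _ _ hla k1
  have d2 := hdouble _ _ hla k5
  -- bound
  have hsub : ((Icc 1 X).filter (fun n : ℕ => ¬ GapIn (exp (l ^ θ)) (exp (c * l ^ γ))
      (l ^ (1 - ε)) (exp (l ^ (θ + γ - 1 + ε))) n)) ⊆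
      ((Icc 1 X).filter (fun n : ℕ => ¬ Dens (exp (l ^ θ)) (exp (c * l ^ γ)) (exp (l ^ a)) n)) ∪
      ((Icc 1 X).filter (fun n : ℕ => ¬ Emp (exp (l ^ θ)) (exp (l ^ (1 - θ - η - η / 8 / 3)) / 2)
        (exp (l ^ (1 - θ - η - η / 8 / 4))) (l ^ (θ + (1 - θ - η) - η / 8)) (n + S))) := by
    intro n hn
    rw [mem_filter] at hn
    rw [mem_union, mem_filter, mem_filter]
    by_contra hcon
    push Not at hcon
    apply hn.2
    have hD := hcon.1 hn.1
    have hE := emp_shift _ _ _ _ _ _ (hcon.2 hn.1)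
    have h3 := gap_of _ _ _ _ _ _ (exp (l ^ (θ + γ - 1 + ε))) n (by positivity)
      (one_le_exp (by positivity)) (by
        have := exp_pos (l ^ (1 - θ - η - η / 8 / 3))
        linarith) (by linarith) (by linarith) hD hE
    refine ⟨h3.1, ?_⟩
    obtain ⟨r, r', m1, m2, m3, m4⟩ := h3.2
    refine ⟨r, r', m1, m2, m3, le_trans ?_ m4⟩
    exact rpow_le_rpow_of_exponent_le k8 (by linarith)
  have hcard := (card_le_card hsub).trans (card_union_le _ _)
  have hsh := count_shift (fun n => Emp (exp (l ^ θ)) (exp (l ^ (1 - θ - η - η / 8 / 3)) / 2)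
        (exp (l ^ (1 - θ - η - η / 8 / 4))) (l ^ (θ + (1 - θ - η) - η / 8)) n) S X
  have hall : (((Icc 1 X).filter (fun n : ℕ => ¬ GapIn (exp (l ^ θ)) (exp (c * l ^ γ))
      (l ^ (1 - ε)) (exp (l ^ (θ + γ - 1 + ε))) n)).card : ℝ) ≤
      (((Icc 1 X).filter (fun n : ℕ => ¬ Dens (exp (l ^ θ)) (exp (c * l ^ γ))
        (exp (l ^ a)) n)).card : ℝ) +
      (((Icc 1 X).filter (fun n : ℕ => ¬ Emp (exp (l ^ θ)) (exp (l ^ (1 - θ - η - η / 8 / 3)) / 2)
        (exp (l ^ (1 - θ - η - η / 8 / 4))) (l ^ (θ + (1 - θ - η) - η / 8)) n)).card : ℝ) + S := by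
    have := hcard.trans (Nat.add_le_add_left hsh _)
    rw [← Nat.add_assoc] at this
    exact_mod_cast this
  have hSX : (S : ℝ) ≤ 2 * exp (-l ^ b) * X := by
    have m1 : exp (l ^ b) ≤ exp (-l ^ b) * X := by
      rw [← hexp, ← exp_add]; exact exp_le_exp.2 (by linarith)
    have m2 : 1 ≤ exp (l ^ b) := one_le_exp (by linarith)
    linarith
  rw [← add_div, div_add' _ _ _ hX0.ne']
  apply div_le_div_of_nonneg_right _ hX0.le
  linarith

open Classical in
/-- The exponent law for `θ + γ < 1` and the bounds for `θ + γ ≥ 1`. -/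
theorem gap_law (θ γ c ε : ℝ) (hθ1 : θ < 1) (hγ0 : 0 < γ) (hγ1 : γ < 1)
    (hc : 0 < c) (hε : 0 < ε) :
    (γ ≤ θ → θ + γ < 1 → Tendsto (fun X : ℕ => (((Icc 1 X).filter (fun n : ℕ =>
      ¬ GapIn (exp (log X ^ θ)) (exp (c * log X ^ γ)) (log X ^ (θ + γ - ε))
        (log X ^ (θ + γ + ε)) n)).card : ℝ) / X) atTop (𝓝 0)) ∧
    (1 / 2 ≤ θ → 1 ≤ θ + γ → Tendsto (fun X : ℕ => (((Icc 1 X).filter (fun n : ℕ =>
      ¬ GapIn (exp (log X ^ θ)) (exp (c * log X ^ γ)) (log X ^ (1 - ε))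
        (exp (log X ^ (θ + γ - 1 + ε))) n)).card : ℝ) / X) atTop (𝓝 0)) :=
  ⟨fun h1 h2 => exponent_law θ γ c hγ0 h1 h2 hc ε hε,
    fun h1 h2 => gap_long θ γ c ε h1 hθ1 hγ0 hγ1 h2 hc hε⟩

end Pool.Agent.RG2
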