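import Pool.Agent.RG2.Per

/-!
# RG2 / Mean: averages of products over a period
-/

set_option autoImplicit false

namespace Pool.Agent.RG2

open Finset

/-- product of the sums -/
noncomputable def Pp (e H : ℕ) (t : List (Finset ℕ)) (u : ℕ) : ℝ :=
  (t.map (fun S => (A H (e * pd S) u : ℝ) + A H e u / pd S)).prod

/-- product of the differences -/
noncomputable def Pz (e H : ℕ) (t : List (Finset ℕ)) (u : ℕ) : ℝ :=
  (t.map (fun S => (A H (e * pd S) u : ℝ) - A H e u / pd S)).prod

lemma pd_pos {S : Finset ℕ} (h : ∀ p ∈ S, p.Prime) : 0 < pd S :=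
  prod_pos fun p hp => (h p hp).pos

lemma pd_dvd {S T : Finset ℕ} (h : S ⊆ T) : pd S ∣ pd T :=
  prod_dvd_prod_of_subset _ _ _ h

lemma pd_split (S U : Finset ℕ) : pd S = pd (S ∩ U) * pd (S \ U) := by
  unfold pd
  conv_lhs => rw [← sdiff_union_inter S U]
  rw [prod_union (disjoint_sdiff_inter S U), mul_comm]

lemma pd_union (S U : Finset ℕ) : pd (S ∪ U) = pd U * pd (S \ U) := by
  unfold pd
  rw [← prod_union disjoint_sdiff]
  congr 1
  rw [union_sdiff_self_eq_union, union_comm]

lemma pd_coprime {S U : Finset ℕ} (hS : ∀ p ∈ S, p.Prime) (hU : ∀ p ∈ U, p.Prime)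
    (h : Disjoint U S) (e : ℕ) (he : ∀ p ∈ S, ¬ p ∣ e) : Nat.Coprime (e * pd U) (pd S) := by
  unfold pd
  refine Nat.Coprime.prod_right fun q hq => ?_
  refine Nat.Coprime.mul_left ?_ ?_
  · exact ((Nat.Prime.coprime_iff_not_dvd (hS q hq)).2 (he q hq)).symm
  · refine Nat.Coprime.prod_left fun p hp => ?_
    rw [Nat.coprime_primes (hU p hp) (hS q hq)]
    rintro rfl
    exact disjoint_left.1 h hp hq

lemma Pp_nonneg (e H : ℕ) (t : List (Finset ℕ)) (u : ℕ) : 0 ≤ Pp e H t u := by
  unfold Pp
  refine List.prod_nonneg ?_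
  intro x hx
  rw [List.mem_map] at hx
  obtain ⟨S, _, rfl⟩ := hx
  positivity

lemma Pp_period (e H M : ℕ) (t : List (Finset ℕ)) (he : e ∣ M) (ht : ∀ S ∈ t, e * pd S ∣ M)
    (u : ℕ) : Pp e H t (u + M) = Pp e H t u := by
  unfold Pp
  congr 1
  refine List.map_congr_left fun S hS => ?_
  rw [A_period H _ u M (ht S hS), A_period H _ u M he]

lemma Pz_period (e H M : ℕ) (t : List (Finset ℕ)) (he : e ∣ M) (ht : ∀ S ∈ t, e * pd S ∣ M)
    (u : ℕ) : Pz e H t (u + M) = Pz e H t u := by
  unfold Pz
  congr 1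
  refine List.map_congr_left fun S hS => ?_
  rw [A_period H _ u M (ht S hS), A_period H _ u M he]

lemma dvd_M (e : ℕ) (t : List (Finset ℕ)) {S : Finset ℕ} (hS : S ∈ t) :
    e * pd S ∣ e * pd (un t) := Nat.mul_dvd_mul_left e (pd_dvd (subset_un hS))

/-- the bound for the mean -/
noncomputable def wt (e H y : ℕ) (t : List (Finset ℕ)) : ℝ :=
  (4 * H / e : ℝ) ^ t.length * (1 / (y : ℝ)) ^ lc t * bp t

lemma un_subset {P : Finset ℕ} {t : List (Finset ℕ)} (h : ∀ S ∈ t, S ⊆ P) : un t ⊆ P := by
  induction t with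
  | nil => simp [un]
  | cons a t ih =>
    rw [un]
    exact union_subset (h a (by simp)) (ih fun S hS => h S (by simp [hS]))

lemma wt_nonneg (e H y : ℕ) (t : List (Finset ℕ)) : 0 ≤ wt e H y t := by
  unfold wt
  have := bp_nonneg t
  positivity

theorem mean_le (P : Finset ℕ) (hP : ∀ p ∈ P, p.Prime) (e H y : ℕ) (he : 0 < e) (hy : 0 < y)
    (hPe : ∀ p ∈ P, ¬ p ∣ e) (hPy : ∀ p ∈ P, y < p) (hH : e * y ≤ H) (t : List (Finset ℕ))
    (ht : ∀ S ∈ t, S ⊆ P) :
    ∑ u ∈ range (e * pd (un t)), Pp e H t u ≤ ((e * pd (un t) : ℕ) : ℝ) * wt e H y t := by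
  induction t with
  | nil =>
    simp [un, pd, Pp, wt, lc, bp]
  | cons S t ih =>
    have ht' : ∀ T ∈ t, T ⊆ P := fun T hT => ht T (by simp [hT])
    have ih' := ih ht'
    have hSP : S ⊆ P := ht S (by simp)
    set U := un t with hU
    have hUP : U ⊆ P := un_subset ht'
    have hunc : un (S :: t) = S ∪ U := rfl
    have hM : e * pd (un (S :: t)) = (e * pd U) * pd (S \ U) := by
      rw [hunc, pd_union, mul_assoc]
    have hbpos : 0 < pd (S \ U) := pd_pos fun p hp => hP p (hSP (mem_sdiff.1 hp).1)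
    have hapos : 0 < pd (S ∩ U) := pd_pos fun p hp => hP p (hSP (mem_inter.1 hp).1)
    have hcop : Nat.Coprime (e * pd U) (pd (S \ U)) :=
      pd_coprime (fun p hp => hP p (hSP (mem_sdiff.1 hp).1)) (fun p hp => hP p (hUP hp))
        disjoint_sdiff e (fun p hp => hPe p (hSP (mem_sdiff.1 hp).1))
    have hkM : e * pd (S ∩ U) ∣ e * pd U := Nat.mul_dvd_mul_left e (pd_dvd inter_subset_right)
    have heM : e ∣ e * pd U := Nat.dvd_mul_right _ _
    set a := pd (S ∩ U) with ha
    set b := pd (S \ U) with hb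
    have hSab : pd S = a * b := pd_split S U
    have he0 : (0 : ℝ) < e := by exact_mod_cast he
    have hy0 : (0 : ℝ) < y := by exact_mod_cast hy
    have ha0 : (0 : ℝ) < a := by exact_mod_cast hapos
    have ha1 : (1 : ℝ) ≤ a := by exact_mod_cast hapos
    have hb0 : (0 : ℝ) < b := by exact_mod_cast hbpos
    have hHr : (e : ℝ) * y ≤ H := by exact_mod_cast hH
    have hy1 : (1 : ℝ) ≤ y := by exact_mod_cast hy
    -- the factor
    have hκ : ∀ u, (A H (e * a) u : ℝ) + b * (A H e u / (a * b)) ≤
        4 * H / e * (1 / (y : ℝ)) ^ (if Disjoint S U then 0 else 1) := by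
      intro u
      have h1 := A_le H (e * a) u (by positivity)
      have h2 := A_le H e u he
      have h3 : (b : ℝ) * (A H e u / (a * b)) = A H e u / a := by field_simp
      rw [h3]
      push_cast at h1
      have h4 : (A H e u : ℝ) / a ≤ H / (e * a) + 1 := by
        rw [div_le_iff₀ ha0]
        have : ((H : ℝ) / (e * a) + 1) * a = H / e + a := by field_simp
        rw [this]; linarith
      have h5 : (H : ℝ) / (e * a) = H / e / a := by rw [div_div]
      have h6 : (y : ℝ) ≤ H / e := by rw [le_div_iff₀ he0]; linarith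
      have h7 : (4 : ℝ) * H / e = 4 * (H / e) := by ring
      rw [h7]
      by_cases hd : Disjoint S U
      · rw [if_pos hd, pow_zero, mul_one]
        have h8 : (H : ℝ) / e / a ≤ H / e := div_le_self (by positivity) ha1
        linarith
      · rw [if_neg hd, pow_one]
        have h9 : (y : ℝ) ≤ a := by
          rw [not_disjoint_iff] at hd
          obtain ⟨p, hp1, hp2⟩ := hd
          have h10 : p ∣ a := dvd_prod_of_mem _ (mem_inter.2 ⟨hp1, hp2⟩)
          have h11 := Nat.le_of_dvd hapos h10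
          have h12 := hPy p (hSP hp1)
          exact_mod_cast (by omega : y ≤ a)
        have h8 : (H : ℝ) / e / a ≤ H / e / y := div_le_div_of_nonneg_left (by positivity) hy0 h9
        have h13 : 1 ≤ (H : ℝ) / e / y := by rw [le_div_iff₀ hy0]; linarith
        have h14 : 4 * ((H : ℝ) / e) * (1 / y) = 4 * (H / e / y) := by ring
        rw [h14]
        linarith
    rw [hM, sum_range_split]
    have hstep : ∀ u ∈ range (e * pd U), ∑ j ∈ range b, Pp e H (S :: t) (u + e * pd U * j) =
        ((A H (e * a) u : ℝ) + b * (A H e u / (a * b))) * Pp e H t u := by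
      intro u _
      have e1 : ∀ j ∈ range b, Pp e H (S :: t) (u + e * pd U * j) =
          ((A H (e * a * b) (u + e * pd U * j) : ℝ) + A H e u / (a * b)) * Pp e H t u := by
        intro j _
        have e2 : Pp e H t (u + e * pd U * j) = Pp e H t u :=
          Pp_period e H _ t (heM.mul_right j) (fun T hT => (dvd_M e t hT).mul_right j) u
        have e3 : A H e (u + e * pd U * j) = A H e u := A_period H e u _ (heM.mul_right j)
        have e4 : Pp e H (S :: t) (u + e * pd U * j) =
            ((A H (e * pd S) (u + e * pd U * j) : ℝ) + A H e (u + e * pd U * j) / pd S) *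
              Pp e H t (u + e * pd U * j) := by
          unfold Pp; rw [List.map_cons, List.prod_cons]
        rw [e4, e2, e3, hSab, ← mul_assoc e a b]
        push_cast
        rfl
      rw [sum_congr rfl e1, ← sum_mul, sum_add_distrib, sum_shift H (e * a) b _ u hbpos hkM hcop,
        sum_const, card_range, nsmul_eq_mul]
    rw [sum_congr rfl hstep]
    have hκ0 : 0 ≤ 4 * (H : ℝ) / e * (1 / (y : ℝ)) ^ (if Disjoint S U then 0 else 1) := by
      positivity
    calc ∑ u ∈ range (e * pd U), ((A H (e * a) u : ℝ) + b * (A H e u / (a * b))) * Pp e H t u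
        ≤ ∑ u ∈ range (e * pd U), (4 * H / e * (1 / (y : ℝ)) ^ (if Disjoint S U then 0 else 1)) *
            Pp e H t u :=
          sum_le_sum fun u _ => mul_le_mul_of_nonneg_right (hκ u) (Pp_nonneg e H t u)
      _ = (4 * H / e * (1 / (y : ℝ)) ^ (if Disjoint S U then 0 else 1)) *
            ∑ u ∈ range (e * pd U), Pp e H t u := by rw [mul_sum]
      _ ≤ (4 * H / e * (1 / (y : ℝ)) ^ (if Disjoint S U then 0 else 1)) *
            (((e * pd U : ℕ) : ℝ) * wt e H y t) := mul_le_mul_of_nonneg_left ih' hκ0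
      _ = ((e * pd U * b : ℕ) : ℝ) * wt e H y (S :: t) := by
          have e5 : ∏ p ∈ S \ U, 1 / (p : ℝ) = 1 / (b : ℝ) := by
            rw [hb]; unfold pd; push_cast
            rw [prod_div_distrib, prod_const_one]
          unfold wt
          rw [lc, bp, ← hU, e5, List.length_cons, pow_succ, pow_add]
          push_cast
          field_simp

theorem sum_zero (P : Finset ℕ) (hP : ∀ p ∈ P, p.Prime) (e H : ℕ)
    (hPe : ∀ p ∈ P, ¬ p ∣ e) (s v : List (Finset ℕ)) (S : Finset ℕ)
    (ht : ∀ T ∈ s ++ S :: v, T ⊆ P) (h1 : Disjoint S (un v)) (h2 : Disjoint S (un s)) :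
    ∑ u ∈ range (e * pd (un (s ++ S :: v))), Pz e H (s ++ S :: v) u = 0 := by
  set V := un s ∪ un v with hV
  have hs : ∀ T ∈ s, T ⊆ P := fun T hT => ht T (by simp [hT])
  have hv : ∀ T ∈ v, T ⊆ P := fun T hT => ht T (by simp [hT])
  have hSP : S ⊆ P := ht S (by simp)
  have hVP : V ⊆ P := union_subset (un_subset hs) (un_subset hv)
  have hdis : Disjoint V S := by
    rw [hV, disjoint_union_left]; exact ⟨h2.symm, h1.symm⟩
  have hun : un (s ++ S :: v) = S ∪ V := by
    rw [un_append, un, hV]
    ext x; simp only [mem_union]; tauto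
  have hpd : pd (S ∪ V) = pd V * pd S := by
    rw [pd_union, sdiff_eq_self_of_disjoint hdis.symm]
  have hcop : Nat.Coprime (e * pd V) (pd S) :=
    pd_coprime (fun p hp => hP p (hSP hp)) (fun p hp => hP p (hVP hp)) hdis e
      (fun p hp => hPe p (hSP hp))
  have hbpos : 0 < pd S := pd_pos fun p hp => hP p (hSP hp)
  have hb0 : (0 : ℝ) < pd S := by exact_mod_cast hbpos
  have heM : e ∣ e * pd V := Nat.dvd_mul_right _ _
  rw [hun, hpd, ← mul_assoc, sum_range_split]
  refine sum_eq_zero fun u _ => ?_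
  have e1 : ∀ j ∈ range (pd S), Pz e H (s ++ S :: v) (u + e * pd V * j) =
      (Pz e H s u * Pz e H v u) * ((A H (e * pd S) (u + e * pd V * j) : ℝ) - A H e u / pd S) := by
    intro j _
    have e2 : Pz e H s (u + e * pd V * j) = Pz e H s u :=
      Pz_period e H _ s (heM.mul_right j) (fun T hT => by
        refine Dvd.dvd.mul_right (Nat.mul_dvd_mul_left e (pd_dvd ?_)) j
        exact (subset_un hT).trans subset_union_left) u
    have e3 : Pz e H v (u + e * pd V * j) = Pz e H v u :=
      Pz_period e H _ v (heM.mul_right j) (fun T hT => by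
        refine Dvd.dvd.mul_right (Nat.mul_dvd_mul_left e (pd_dvd ?_)) j
        exact (subset_un hT).trans subset_union_right) u
    have e4 : A H e (u + e * pd V * j) = A H e u := A_period H e u _ (heM.mul_right j)
    have e5 : Pz e H (s ++ S :: v) (u + e * pd V * j) =
        Pz e H s (u + e * pd V * j) * (((A H (e * pd S) (u + e * pd V * j) : ℝ) -
          A H e (u + e * pd V * j) / pd S) * Pz e H v (u + e * pd V * j)) := by
      unfold Pz
      rw [List.map_append, List.prod_append, List.map_cons, List.prod_cons]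
    rw [e5, e2, e3, e4]
    ring
  rw [sum_congr rfl e1, ← mul_sum, sum_sub_distrib, sum_shift H e (pd S) _ u hbpos heM hcop,
    sum_const, card_range, nsmul_eq_mul]
  field_simp
  ring

lemma Pz_abs_le (e H : ℕ) (t : List (Finset ℕ)) (ht : ∀ S ∈ t, 0 < pd S) (u : ℕ) :
    |Pz e H t u| ≤ (H : ℝ) ^ t.length := by
  induction t with
  | nil => simp [Pz]
  | cons S t ih =>
    have ih' := ih fun T hT => ht T (by simp [hT])
    have e1 : Pz e H (S :: t) u = ((A H (e * pd S) u : ℝ) - A H e u / pd S) * Pz e H t u := by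
      unfold Pz; rw [List.map_cons, List.prod_cons]
    rw [e1, abs_mul, List.length_cons, pow_succ, mul_comm]
    apply mul_le_mul ih' _ (abs_nonneg _) (by positivity)
    have h1 : (A H (e * pd S) u : ℝ) ≤ H := by exact_mod_cast A_le_H H _ u
    have h2 : (A H e u : ℝ) ≤ H := by exact_mod_cast A_le_H H _ u
    have h3 : (1 : ℝ) ≤ pd S := by exact_mod_cast ht S (by simp)
    have h4 : (A H e u : ℝ) / pd S ≤ A H e u := div_le_self (by positivity) h3
    have h5 : 0 ≤ (A H e u : ℝ) / pd S := by positivity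
    have h6 : (0 : ℝ) ≤ A H (e * pd S) u := by positivity
    rw [abs_le]
    constructor <;> linarith

lemma Pz_abs_le_Pp (e H : ℕ) (t : List (Finset ℕ)) (u : ℕ) : |Pz e H t u| ≤ Pp e H t u := by
  induction t with
  | nil => simp [Pz, Pp]
  | cons S t ih =>
    have e1 : Pz e H (S :: t) u = ((A H (e * pd S) u : ℝ) - A H e u / pd S) * Pz e H t u := by
      unfold Pz; rw [List.map_cons, List.prod_cons]
    have e2 : Pp e H (S :: t) u = ((A H (e * pd S) u : ℝ) + A H e u / pd S) * Pp e H t u := by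
      unfold Pp; rw [List.map_cons, List.prod_cons]
    rw [e1, e2, abs_mul]
    apply mul_le_mul _ ih (abs_nonneg _) (by positivity)
    have h5 : 0 ≤ (A H e u : ℝ) / pd S := by positivity
    have h6 : (0 : ℝ) ≤ A H (e * pd S) u := by positivity
    rw [abs_le]
    constructor <;> linarith

end Pool.Agent.RG2
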