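import Pool.Agent.RG2.Mean

/-!
# RG2 / Mom: the `K`-th moment
-/

set_option autoImplicit false

namespace Pool.Agent.RG2

open Finset

lemma abs_prod_map_le (c : Finset ℕ → ℝ) (hc : ∀ S, |c S| ≤ 1) (t : List (Finset ℕ)) :
    |(t.map c).prod| ≤ 1 := by
  induction t with
  | nil => simp
  | cons S t ih =>
    rw [List.map_cons, List.prod_cons, abs_mul]
    calc |c S| * |(t.map c).prod| ≤ 1 * 1 := mul_le_mul (hc S) ih (abs_nonneg _) (by norm_num)
      _ = 1 := one_mul 1

lemma map_prod_mul (c : Finset ℕ → ℝ) (e H : ℕ) (u : ℕ) (t : List (Finset ℕ)) :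
    (t.map (fun S => c S * ((A H (e * pd S) u : ℝ) - A H e u / pd S))).prod =
      (t.map c).prod * Pz e H t u := by
  induction t with
  | nil => simp [Pz]
  | cons S t ih =>
    have e1 : Pz e H (S :: t) u = ((A H (e * pd S) u : ℝ) - A H e u / pd S) * Pz e H t u := by
      unfold Pz; rw [List.map_cons, List.prod_cons]
    rw [List.map_cons, List.prod_cons, List.map_cons, List.prod_cons, ih, e1]
    ring

lemma pd_le_pow (z : ℕ) (S : Finset ℕ) (h : ∀ p ∈ S, p ≤ z) : pd S ≤ z ^ S.card := by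
  unfold pd
  exact prod_le_pow_card S _ z h

theorem moment (P : Finset ℕ) (hP : ∀ p ∈ P, p.Prime) (e H y z R K0 X : ℕ) (he : 0 < e)
    (hy : 0 < y) (hz : 0 < z) (hPe : ∀ p ∈ P, ¬ p ∣ e) (hPy : ∀ p ∈ P, y < p)
    (hPz : ∀ p ∈ P, p ≤ z) (hH : e * y ≤ H) (hX : e * z ^ (R * ((R + 1) * K0)) ≤ X)
    (c : Finset ℕ → ℝ) (hc : ∀ S, |c S| ≤ 1) :
    ∑ u ∈ range X, (∑ S ∈ P.powerset.filter (fun S => 1 ≤ S.card ∧ S.card ≤ R),
        c S * ((A H (e * pd S) u : ℝ) - A H e u / pd S)) ^ ((R + 1) * K0) ≤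
      ((P.powerset.filter (fun S => 1 ≤ S.card ∧ S.card ≤ R)).card : ℝ) ^ ((R + 1) * K0) *
        (e * (z : ℝ) ^ (R * ((R + 1) * K0)) * (H : ℝ) ^ ((R + 1) * K0)) +
      2 * X * (4 * H / e) ^ ((R + 1) * K0) * (1 / (y : ℝ)) ^ K0 *
        ((((R * ((R + 1) * K0) : ℕ) : ℝ) + 1) ^ R * ∏ p ∈ P, (1 + 1 / (p : ℝ))) ^
          ((R + 1) * K0) := by
  classical
  set K := (R + 1) * K0 with hK
  set D := P.powerset.filter (fun S => 1 ≤ S.card ∧ S.card ≤ R) with hD
  have he0 : (0 : ℝ) < e := by exact_mod_cast he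
  have hy0 : (0 : ℝ) < y := by exact_mod_cast hy
  have hy1 : (1 : ℝ) ≤ y := by exact_mod_cast hy
  have h1 : ∑ u ∈ range X, (∑ S ∈ D, c S * ((A H (e * pd S) u : ℝ) - A H e u / pd S)) ^ K =
      ∑ t ∈ tup D K, (t.map c).prod * ∑ u ∈ range X, Pz e H t u := by
    have e1 : ∀ u, (∑ S ∈ D, c S * ((A H (e * pd S) u : ℝ) - A H e u / pd S)) ^ K =
        ∑ t ∈ tup D K, (t.map c).prod * Pz e H t u := by
      intro u
      rw [pow_eq_sum_tup]
      exact sum_congr rfl fun t _ => map_prod_mul c e H u t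
    rw [sum_congr rfl fun u _ => e1 u, sum_comm]
    exact sum_congr rfl fun t _ => by rw [mul_sum]
  rw [h1]
  have h2 : ∀ t ∈ tup D K, (t.map c).prod * ∑ u ∈ range X, Pz e H t u ≤
      e * (z : ℝ) ^ (R * K) * (H : ℝ) ^ K +
      2 * X * (4 * H / e) ^ K * (1 / (y : ℝ)) ^ K0 * bp t := by
    intro t ht
    rw [mem_tup] at ht
    obtain ⟨hlen, hmem⟩ := ht
    have hsub : ∀ S ∈ t, S ⊆ P := fun S hS => mem_powerset.1 (mem_filter.1 (hmem S hS)).1
    have hcard : ∀ S ∈ t, S.card ≤ R := fun S hS => (mem_filter.1 (hmem S hS)).2.2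
    have hpdpos : ∀ S ∈ t, 0 < pd S := fun S hS => pd_pos fun p hp => hP p (hsub S hS hp)
    have hunP := un_subset hsub
    set N := e * pd (un t) with hN
    have hNpos : 0 < N := Nat.mul_pos he (pd_pos fun p hp => hP p (hunP hp))
    have hNle : N ≤ e * z ^ (R * K) := by
      apply Nat.mul_le_mul_left
      refine (pd_le_pow z _ fun p hp => hPz p (hunP hp)).trans ?_
      apply Nat.pow_le_pow_right hz
      have := card_un R t hcard
      rwa [hlen] at this
    have hNr : (N : ℝ) ≤ e * (z : ℝ) ^ (R * K) := by exact_mod_cast hNle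
    have hNX : (N : ℝ) ≤ X := by exact_mod_cast hNle.trans hX
    have hN0 : (0 : ℝ) < N := by exact_mod_cast hNpos
    have heN : e ∣ N := Nat.dvd_mul_right _ _
    have hdv : ∀ S ∈ t, e * pd S ∣ N := fun S hS => dvd_M e t hS
    have h3 : (t.map c).prod * ∑ u ∈ range X, Pz e H t u ≤ |∑ u ∈ range X, Pz e H t u| := by
      refine (le_abs_self _).trans ?_
      rw [abs_mul]
      calc _ ≤ 1 * |∑ u ∈ range X, Pz e H t u| :=
            mul_le_mul_of_nonneg_right (abs_prod_map_le c hc t) (abs_nonneg _)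
        _ = _ := one_mul _
    refine h3.trans ?_
    have hT1 : 0 ≤ e * (z : ℝ) ^ (R * K) * (H : ℝ) ^ K := by positivity
    have hT2 : 0 ≤ 2 * X * (4 * (H : ℝ) / e) ^ K * (1 / (y : ℝ)) ^ K0 * bp t :=
      mul_nonneg (by positivity) (bp_nonneg t)
    by_cases hl : Linked t
    · have h4 : |∑ u ∈ range X, Pz e H t u| ≤ ∑ u ∈ range X, Pp e H t u :=
        (abs_sum_le_sum_abs _ _).trans (sum_le_sum fun u _ => Pz_abs_le_Pp e H t u)
      have h5 := sum_periodic_le (Pp e H t) N X hNpos (Pp_period e H N t heN hdv)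
        (Pp_nonneg e H t)
      have h6 := mean_le P hP e H y he hy hPe hPy hH t hsub
      rw [← hN] at h6
      have h7 : ((X : ℝ) / N + 1) * ∑ u ∈ range N, Pp e H t u ≤
          ((X : ℝ) / N + 1) * ((N : ℝ) * wt e H y t) :=
        mul_le_mul_of_nonneg_left h6 (by positivity)
      have h8 : ((X : ℝ) / N + 1) * ((N : ℝ) * wt e H y t) = (X + N) * wt e H y t := by
        field_simp
      have h9 : (X + N) * wt e H y t ≤ 2 * X * wt e H y t :=
        mul_le_mul_of_nonneg_right (by linarith) (wt_nonneg e H y t)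
      have h10 : wt e H y t ≤ (4 * H / e) ^ K * (1 / (y : ℝ)) ^ K0 * bp t := by
        unfold wt
        rw [hlen]
        apply mul_le_mul_of_nonneg_right _ (bp_nonneg t)
        apply mul_le_mul_of_nonneg_left _ (by positivity)
        apply pow_le_pow_of_le_one (by positivity)
        · rw [div_le_one hy0]; exact hy1
        · have h11 := length_le_of_linked R t hcard hl
          rw [hlen, hK] at h11
          exact Nat.le_of_mul_le_mul_left h11 (by omega)
      have h12 : 2 * X * wt e H y t ≤ 2 * X * ((4 * H / e) ^ K * (1 / (y : ℝ)) ^ K0 * bp t) :=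
        mul_le_mul_of_nonneg_left h10 (by positivity)
      have h13 : 2 * (X : ℝ) * ((4 * H / e) ^ K * (1 / (y : ℝ)) ^ K0 * bp t) =
          2 * X * (4 * H / e) ^ K * (1 / (y : ℝ)) ^ K0 * bp t := by ring
      linarith
    · unfold Linked at hl
      push Not at hl
      obtain ⟨s, S, v, hs, hd1, hd2⟩ := hl
      have h4 := sum_zero P hP e H hPe s v S (by rw [← hs]; exact hsub) hd1 hd2
      rw [← hs, ← hN] at h4
      have h5 := sum_periodic_zero (Pz e H t) N X hNpos (Pz_period e H N t heN hdv) h4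
        ((H : ℝ) ^ t.length) (Pz_abs_le e H t hpdpos)
      rw [hlen] at h5
      have h6 : (N : ℝ) * (H : ℝ) ^ K ≤ e * (z : ℝ) ^ (R * K) * (H : ℝ) ^ K :=
        mul_le_mul_of_nonneg_right hNr (by positivity)
      linarith
  refine (sum_le_sum h2).trans ?_
  rw [sum_add_distrib, sum_const, nsmul_eq_mul, card_tup, ← mul_sum]
  push_cast
  have h4 := sum_bp P R (R * K) K le_rfl
  rw [← hD] at h4
  have h5 : 0 ≤ 2 * X * (4 * (H : ℝ) / e) ^ K * (1 / (y : ℝ)) ^ K0 := by positivity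
  have h6 := mul_le_mul_of_nonneg_left h4 h5
  push_cast at h6
  linarith

end Pool.Agent.RG2
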