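import Pool.Agent.RG2.Tup

/-!
# RG2 / Per: the multiples of `k` in an interval of length `H`, sums over a period
-/

set_option autoImplicit false

namespace Pool.Agent.RG2

open Finset

/-- number of multiples of `k` in `[u, u + H)` -/
def A (H k u : ℕ) : ℕ := ((range H).filter (fun h => k ∣ u + h)).card

/-- the product of a set -/
def pd (S : Finset ℕ) : ℕ := ∏ p ∈ S, p

lemma A_le_H (H k u : ℕ) : A H k u ≤ H := by
  unfold A
  exact (card_filter_le _ _).trans (by rw [card_range])

lemma count_one (M b c : ℕ) (hb : 0 < b) (h : Nat.Coprime M b) :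
    ((range b).filter (fun j => b ∣ c + M * j)).card = 1 := by
  have hinj : ∀ i ∈ range b, ∀ j ∈ range b, (c + M * i) % b = (c + M * j) % b → i = j := by
    intro i hi j hj hij
    rw [mem_range] at hi hj
    have h1 : c + M * i ≡ c + M * j [MOD b] := hij
    have h2 : M * i ≡ M * j [MOD b] := Nat.ModEq.add_left_cancel' c h1
    have h3 : i ≡ j [MOD b] := Nat.ModEq.cancel_left_of_coprime h.symm h2
    have h4 : i % b = j % b := h3
    rwa [Nat.mod_eq_of_lt hi, Nat.mod_eq_of_lt hj] at h4
  have himg : (range b).image (fun i => (c + M * i) % b) = range b := by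
    apply eq_of_subset_of_card_le
    · intro x hx
      rw [mem_image] at hx
      obtain ⟨i, _, rfl⟩ := hx
      exact mem_range.2 (Nat.mod_lt _ hb)
    · rw [card_image_of_injOn]
      intro i hi j hj hij
      exact hinj i hi j hj hij
  have h0 : 0 ∈ (range b).image (fun i => (c + M * i) % b) := by
    rw [himg]; exact mem_range.2 hb
  rw [mem_image] at h0
  obtain ⟨i, hi, hi0⟩ := h0
  rw [card_eq_one]
  refine ⟨i, ?_⟩
  ext j
  rw [mem_filter, mem_singleton]
  constructor
  · rintro ⟨hj, hd⟩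
    apply hinj j hj i hi
    rw [hi0, Nat.mod_eq_zero_of_dvd hd]
  · rintro rfl
    exact ⟨hi, Nat.dvd_of_mod_eq_zero hi0⟩

lemma A_self (k u : ℕ) (hk : 0 < k) : A k k u = 1 := by
  have := count_one 1 k u hk (Nat.coprime_one_left k)
  simpa [A] using this

lemma A_add_H (a b k u : ℕ) : A (a + b) k u = A a k u + A b k (u + a) := by
  unfold A
  rw [range_eq_Ico, range_eq_Ico, ← Ico_union_Ico_eq_Ico (Nat.zero_le a) (Nat.le_add_right a b),
    filter_union, card_union_of_disjoint]
  · congr 1
    apply card_nbij' (fun h => h - a) (fun h => h + a)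
    · intro h hh
      simp only [coe_filter, mem_Ico, Set.mem_setOf_eq] at hh ⊢
      simp only [coe_range, Set.mem_setOf_eq, mem_range]
      refine ⟨by omega, ?_⟩
      rw [show u + a + (h - a) = u + h by omega]; exact hh.2
    · intro h hh
      simp only [mem_Ico, coe_filter, Set.mem_setOf_eq, mem_range] at hh ⊢
      refine ⟨⟨by omega, by omega⟩, ?_⟩
      rw [show u + (h + a) = u + a + h by omega]; exact hh.2
    · intro h hh
      simp only [coe_filter, mem_Ico, Set.mem_setOf_eq] at hh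
      simp only
      omega
    · intro h hh
      simp
  · rw [disjoint_left]
    intro x hx hy
    rw [mem_filter, mem_Ico] at hx hy
    omega

lemma A_mono_H (k u : ℕ) {a b : ℕ} (h : a ≤ b) : A a k u ≤ A b k u := by
  unfold A
  apply card_le_card
  apply filter_subset_filter
  exact range_subset_range.2 h

lemma A_bounds (H k u : ℕ) (hk : 0 < k) : H / k ≤ A H k u ∧ A H k u ≤ H / k + 1 := by
  induction H using Nat.strong_induction_on generalizing u with
  | _ H ih =>
    rcases lt_or_ge H k with h | h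
    · rw [Nat.div_eq_of_lt h]
      refine ⟨Nat.zero_le _, ?_⟩
      have := A_mono_H k u h.le
      rw [A_self k u hk] at this
      omega
    · obtain ⟨r, rfl⟩ : ∃ r, H = k + r := ⟨H - k, by omega⟩
      rw [A_add_H, A_self k u hk, Nat.add_div_left _ hk]
      have := ih r (by omega) (u + k)
      omega

lemma A_le (H k u : ℕ) (hk : 0 < k) : (A H k u : ℝ) ≤ H / k + 1 := by
  have h1 := (A_bounds H k u hk).2
  have h2 : ((H / k : ℕ) : ℝ) ≤ (H : ℝ) / k := Nat.cast_div_le
  have h3 : (A H k u : ℝ) ≤ ((H / k : ℕ) : ℝ) + 1 := by exact_mod_cast h1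
  linarith

lemma A_ge (H k u : ℕ) (hk : 0 < k) : (H : ℝ) / k - 1 ≤ A H k u := by
  have h1 := (A_bounds H k u hk).1
  have hk0 : (0 : ℝ) < k := by exact_mod_cast hk
  have h2 : (H : ℝ) / k ≤ ((H / k : ℕ) : ℝ) + 1 := by
    rw [div_le_iff₀ hk0]
    have h3 : H < k * (H / k + 1) := Nat.lt_mul_div_succ H hk
    have h4 : (H : ℝ) < k * (((H / k : ℕ) : ℝ) + 1) := by exact_mod_cast h3
    linarith
  have h3 : ((H / k : ℕ) : ℝ) ≤ A H k u := by exact_mod_cast h1
  linarith

lemma A_period (H k u m : ℕ) (h : k ∣ m) : A H k (u + m) = A H k u := by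
  unfold A
  congr 1
  apply filter_congr
  intro x _
  rw [show u + m + x = u + x + m by ring]
  exact (Nat.dvd_add_left h)

lemma sum_shift (H k b M u : ℕ) (hb : 0 < b) (hk : k ∣ M) (hM : Nat.Coprime M b) :
    ∑ j ∈ range b, (A H (k * b) (u + M * j) : ℝ) = A H k u := by
  have hkb : Nat.Coprime k b := Nat.Coprime.coprime_dvd_left hk hM
  have e1 : ∀ j, (A H (k * b) (u + M * j) : ℝ) =
      ∑ h ∈ range H, if (k ∣ u + h) ∧ (b ∣ u + h + M * j) then (1 : ℝ) else 0 := by
    intro j
    unfold A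
    rw [card_filter]
    push_cast
    refine sum_congr rfl fun h _ => ?_
    congr 1
    apply propext
    constructor
    · intro hd
      rw [show u + M * j + h = u + h + M * j by ring] at hd
      have h1 : k ∣ u + h + M * j := (Nat.dvd_mul_right k b).trans hd
      exact ⟨(Nat.dvd_add_left (hk.mul_right j)).1 h1, (Nat.dvd_mul_left b k).trans hd⟩
    · rintro ⟨h1, h2⟩
      rw [show u + M * j + h = u + h + M * j by ring]
      exact hkb.mul_dvd_of_dvd_of_dvd ((Nat.dvd_add_left (hk.mul_right j)).2 h1) h2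
  rw [sum_congr rfl fun j _ => e1 j, sum_comm]
  unfold A
  rw [card_filter]
  push_cast
  refine sum_congr rfl fun h _ => ?_
  by_cases h1 : k ∣ u + h
  · simp only [h1, true_and, if_true]
    rw [← sum_filter, sum_const, count_one M b (u + h) hb hM]
    simp
  · simp [h1]

lemma sum_range_split (M b : ℕ) (f : ℕ → ℝ) :
    ∑ u ∈ range (M * b), f u = ∑ u ∈ range M, ∑ j ∈ range b, f (u + M * j) := by
  induction b with
  | zero => simp
  | succ b ih =>
    rw [mul_add, mul_one, sum_range_add, ih, ← sum_add_distrib]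
    refine sum_congr rfl fun u _ => ?_
    rw [sum_range_succ, add_comm (M * b) u]

lemma periodic_mul (f : ℕ → ℝ) (N : ℕ) (hf : ∀ u, f (u + N) = f u) (u j : ℕ) :
    f (u + N * j) = f u := by
  induction j with
  | zero => simp
  | succ j ih => rw [mul_add, mul_one, ← add_assoc, hf, ih]

lemma sum_periodic (f : ℕ → ℝ) (N q : ℕ) (hf : ∀ u, f (u + N) = f u) :
    ∑ u ∈ range (N * q), f u = q * ∑ u ∈ range N, f u := by
  rw [sum_range_split]
  simp only [periodic_mul f N hf]
  simp only [sum_const, card_range, nsmul_eq_mul]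
  rw [mul_sum]

lemma sum_periodic_le (f : ℕ → ℝ) (N X : ℕ) (hN : 0 < N) (hf : ∀ u, f (u + N) = f u)
    (h0 : ∀ u, 0 ≤ f u) :
    ∑ u ∈ range X, f u ≤ ((X : ℝ) / N + 1) * ∑ u ∈ range N, f u := by
  have h1 : ∑ u ∈ range X, f u ≤ ∑ u ∈ range (N * (X / N + 1)), f u := by
    apply sum_le_sum_of_subset_of_nonneg
    · exact range_subset_range.2 (Nat.lt_mul_div_succ X hN).le
    · intro u _ _; exact h0 u
  rw [sum_periodic f N _ hf] at h1
  refine h1.trans ?_
  apply mul_le_mul_of_nonneg_right _ (sum_nonneg fun u _ => h0 u)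
  push_cast
  have : ((X / N : ℕ) : ℝ) ≤ (X : ℝ) / N := Nat.cast_div_le
  linarith

lemma sum_periodic_zero (f : ℕ → ℝ) (N X : ℕ) (hN : 0 < N) (hf : ∀ u, f (u + N) = f u)
    (hs : ∑ u ∈ range N, f u = 0) (B : ℝ) (hB : ∀ u, |f u| ≤ B) :
    |∑ u ∈ range X, f u| ≤ N * B := by
  have hB0 : 0 ≤ B := (abs_nonneg _).trans (hB 0)
  have h1 : ∑ u ∈ range X, f u = ∑ j ∈ range (X % N), f (N * (X / N) + j) := by
    conv_lhs => rw [← Nat.div_add_mod X N]
    rw [sum_range_add, sum_periodic f N _ hf, hs, mul_zero, zero_add]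
  rw [h1]
  calc |∑ j ∈ range (X % N), f (N * (X / N) + j)|
      ≤ ∑ j ∈ range (X % N), |f (N * (X / N) + j)| := abs_sum_le_sum_abs _ _
    _ ≤ ∑ _j ∈ range (X % N), B := sum_le_sum fun j _ => hB _
    _ = ((X % N : ℕ) : ℝ) * B := by rw [sum_const, card_range, nsmul_eq_mul]
    _ ≤ N * B := by
        apply mul_le_mul_of_nonneg_right _ hB0
        exact_mod_cast (Nat.mod_lt X hN).le

end Pool.Agent.RG2
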