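import Pool.Agent.RG2.Mom
import Pool.Agent.RG.Ev

/-!
# RG2 / Sieve: Brun's sieve for the numbers without small prime factors, high moments
-/

set_option autoImplicit false

namespace Pool.Agent.RG2

open Finset Pool.Agent.RG

/-- the truncated sum -/
noncomputable def Vt (z R : ℕ) : ℝ :=
  ∑ T ∈ (prm 0 z).powerset.filter (fun T => T.card ≤ R), (-1 : ℝ) ^ T.card * (1 / (pd T : ℝ))

/-- the coefficients for the large primes -/
noncomputable def cf (R : ℕ) (E S : Finset ℕ) : ℝ :=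
  if E.card + S.card ≤ R then (-1 : ℝ) ^ S.card else 0

lemma abs_cf_le (R : ℕ) (E S : Finset ℕ) : |cf R E S| ≤ 1 := by
  unfold cf
  split_ifs
  · simp
  · simp

/-- the part of the sieve sum with mean zero -/
noncomputable def FE (y z R H : ℕ) (E : Finset ℕ) (u : ℕ) : ℝ :=
  ∑ S ∈ (prm y z).powerset.filter (fun S => 1 ≤ S.card ∧ S.card ≤ R),
    cf R E S * ((A H (pd E * pd S) u : ℝ) - A H (pd E) u / pd S)

/-- number of sieved integers in `[u, u + H)` -/
def NN (z H u : ℕ) : ℕ := ((range H).filter (fun h => ∀ p ∈ prm 0 z, ¬ p ∣ u + h)).card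

lemma pd_dvd_iff (T : Finset ℕ) (hT : ∀ p ∈ T, p.Prime) (m : ℕ) :
    pd T ∣ m ↔ ∀ p ∈ T, p ∣ m := by
  constructor
  · intro h p hp
    exact (dvd_prod_of_mem _ hp).trans h
  · intro h
    unfold pd
    exact Finset.prod_primes_dvd m (fun p hp => (hT p hp).prime) h

lemma brun_lower (z R H u : ℕ) (hR : Odd R) :
    ∑ T ∈ (prm 0 z).powerset.filter (fun T => T.card ≤ R), (-1 : ℝ) ^ T.card * (A H (pd T) u : ℝ)
      ≤ NN z H u := by
  have h1 : (NN z H u : ℝ) = ∑ h ∈ range H, (if ∀ p ∈ prm 0 z, ¬ p ∣ u + h then (1 : ℝ) else 0) := by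
    unfold NN
    rw [card_filter]
    push_cast
    rfl
  rw [h1]
  have h2 : ∀ h, ∑ T ∈ (prm 0 z).powerset.filter (fun T => T.card ≤ R), (-1 : ℝ) ^ T.card *
      (if ∀ p ∈ T, p ∣ u + h then (1 : ℝ) else 0) ≤
      (if ∀ p ∈ prm 0 z, ¬ p ∣ u + h then (1 : ℝ) else 0) := fun h =>
    ev_odd (prm 0 z) (fun p => p ∣ u + h) R hR
  refine le_trans (le_of_eq ?_) (sum_le_sum fun h _ => h2 h)
  rw [sum_comm]
  refine sum_congr rfl fun T hT => ?_
  rw [← mul_sum]
  congr 1
  unfold A
  rw [card_filter]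
  push_cast
  refine sum_congr rfl fun h _ => ?_
  rw [mem_filter, mem_powerset] at hT
  simp only [pd_dvd_iff T (fun p hp => (mem_prm.1 (hT.1 hp)).2)]

lemma prm_union (y z : ℕ) (h : y ≤ z) : prm 0 z = prm 0 y ∪ prm y z := by
  ext p
  rw [mem_union, mem_prm, mem_prm, mem_prm]
  constructor
  · rintro ⟨⟨h1, h2⟩, h3⟩
    rcases le_or_gt p y with h4 | h4
    · left; exact ⟨⟨h1, h4⟩, h3⟩
    · right; exact ⟨⟨h4, h2⟩, h3⟩
  · rintro (⟨⟨h1, h2⟩, h3⟩ | ⟨⟨h1, h2⟩, h3⟩)
    · exact ⟨⟨h1, by omega⟩, h3⟩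
    · exact ⟨⟨by omega, h2⟩, h3⟩

lemma prm_disjoint (y z : ℕ) : Disjoint (prm 0 y) (prm y z) := by
  rw [disjoint_left]
  intro p h1 h2
  rw [mem_prm] at h1 h2
  omega

/-- splitting the subsets of a disjoint union -/
lemma sum_powerset_union (s t : Finset ℕ) (h : Disjoint s t) (f : Finset ℕ → ℝ) :
    ∑ T ∈ (s ∪ t).powerset, f T = ∑ E ∈ s.powerset, ∑ S ∈ t.powerset, f (E ∪ S) := by
  rw [← sum_product']
  refine sum_nbij' (fun T => (T ∩ s, T ∩ t)) (fun q => q.1 ∪ q.2) ?_ ?_ ?_ ?_ ?_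
  · intro T _
    rw [mem_product, mem_powerset, mem_powerset]
    exact ⟨inter_subset_right, inter_subset_right⟩
  · intro q hq
    rw [mem_product, mem_powerset, mem_powerset] at hq
    rw [mem_powerset]
    exact union_subset_union hq.1 hq.2
  · intro T hT
    rw [mem_powerset] at hT
    simp only
    rw [← inter_union_distrib_left, inter_eq_left.2 hT]
  · intro q hq
    rw [mem_product, mem_powerset, mem_powerset] at hq
    have h1 : q.2 ∩ s = ∅ := by
      rw [← disjoint_iff_inter_eq_empty]; exact (h.mono_right hq.2).symm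
    have h2 : q.1 ∩ t = ∅ := by
      rw [← disjoint_iff_inter_eq_empty]; exact h.mono_left hq.1
    rw [union_inter_distrib_right, union_inter_distrib_right, h1, h2, inter_eq_left.2 hq.1,
      inter_eq_left.2 hq.2, union_empty, empty_union]
  · intro T hT
    rw [mem_powerset] at hT
    rw [← inter_union_distrib_left, inter_eq_left.2 hT]

lemma pd_disj (E S : Finset ℕ) (h : Disjoint E S) : pd (E ∪ S) = pd E * pd S := by
  unfold pd; exact prod_union h

/-- a truncated sum with a function of `E ∪ S` -/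
lemma split_trunc (y z R : ℕ) (h : y ≤ z) (f : ℕ → ℝ) :
    ∑ T ∈ (prm 0 z).powerset.filter (fun T => T.card ≤ R), (-1 : ℝ) ^ T.card * f (pd T) =
      ∑ E ∈ (prm 0 y).powerset.filter (fun E => E.card ≤ R), (-1 : ℝ) ^ E.card *
        ∑ S ∈ (prm y z).powerset, cf R E S * f (pd E * pd S) := by
  rw [sum_filter, prm_union y z h, sum_powerset_union _ _ (prm_disjoint y z), sum_filter]
  refine sum_congr rfl fun E hE => ?_
  rw [mem_powerset] at hE
  by_cases hER : E.card ≤ R
  · rw [if_pos hER, mul_sum]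
    refine sum_congr rfl fun S hS => ?_
    rw [mem_powerset] at hS
    have hd : Disjoint E S := (prm_disjoint y z).mono hE hS
    rw [card_union_of_disjoint hd, pd_disj E S hd]
    unfold cf
    split_ifs
    · rw [pow_add]; ring
    · ring
  · rw [if_neg hER]
    refine sum_eq_zero fun S hS => ?_
    rw [mem_powerset] at hS
    have hd : Disjoint E S := (prm_disjoint y z).mono hE hS
    rw [card_union_of_disjoint hd, if_neg (by omega)]

lemma inner_eq (y z R H : ℕ) (E : Finset ℕ) (u : ℕ) :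
    ∑ S ∈ (prm y z).powerset, cf R E S * (A H (pd E * pd S) u : ℝ) =
      FE y z R H E u + A H (pd E) u * ∑ S ∈ (prm y z).powerset, cf R E S * (1 / (pd S : ℝ)) := by
  have h1 : FE y z R H E u = ∑ S ∈ (prm y z).powerset,
      cf R E S * ((A H (pd E * pd S) u : ℝ) - A H (pd E) u / pd S) := by
    unfold FE
    rw [sum_filter]
    refine sum_congr rfl fun S _ => ?_
    split_ifs with h
    · rfl
    · rw [not_and_or] at h
      rcases h with h | h
      · have : S = ∅ := by
          rw [← card_eq_zero]; omega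
        rw [this]
        simp [pd]
      · have : cf R E S = 0 := by
          unfold cf; rw [if_neg (by omega)]
        rw [this, zero_mul]
  rw [h1, mul_sum, ← sum_add_distrib]
  refine sum_congr rfl fun S _ => ?_
  ring

lemma main_lower (y z R H u : ℕ) (hyz : y ≤ z) (hR : Odd R) :
    ∑ E ∈ (prm 0 y).powerset.filter (fun E => E.card ≤ R), (-1 : ℝ) ^ E.card * FE y z R H E u +
      (H * Vt z R - ((prm 0 y).powerset.filter (fun E => E.card ≤ R)).card *
        ∏ p ∈ prm y z, (1 + 1 / (p : ℝ))) ≤ NN z H u := by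
  refine le_trans ?_ (brun_lower z R H u hR)
  have h1 := split_trunc y z R hyz (fun k => (A H k u : ℝ))
  rw [h1]
  have h2 := split_trunc y z R hyz (fun k => 1 / (k : ℝ))
  have h3 : Vt z R = _ := h2
  rw [h3]
  have h4 : ∀ E ∈ (prm 0 y).powerset.filter (fun E => E.card ≤ R),
      (-1 : ℝ) ^ E.card * ∑ S ∈ (prm y z).powerset, cf R E S * (A H (pd E * pd S) u : ℝ) =
      (-1 : ℝ) ^ E.card * FE y z R H E u +
        (-1 : ℝ) ^ E.card * A H (pd E) u * ∑ S ∈ (prm y z).powerset, cf R E S * (1 / (pd S : ℝ)) := by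
    intro E _
    rw [inner_eq]; ring
  rw [sum_congr rfl h4, sum_add_distrib]
  have h5 : ∀ E ∈ (prm 0 y).powerset.filter (fun E => E.card ≤ R),
      H * ((-1 : ℝ) ^ E.card * ∑ S ∈ (prm y z).powerset, cf R E S * (1 / ((pd E * pd S : ℕ) : ℝ))) -
        ∏ p ∈ prm y z, (1 + 1 / (p : ℝ)) ≤
      (-1 : ℝ) ^ E.card * A H (pd E) u * ∑ S ∈ (prm y z).powerset, cf R E S * (1 / (pd S : ℝ)) := by
    intro E hE
    rw [mem_filter, mem_powerset] at hE
    have hpos : 0 < pd E := pd_pos fun p hp => (mem_prm.1 (hE.1 hp)).2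
    have hp0 : (0 : ℝ) < pd E := by exact_mod_cast hpos
    have e1 : ∑ S ∈ (prm y z).powerset, cf R E S * (1 / ((pd E * pd S : ℕ) : ℝ)) =
        (1 / (pd E : ℝ)) * ∑ S ∈ (prm y z).powerset, cf R E S * (1 / (pd S : ℝ)) := by
      rw [mul_sum]
      refine sum_congr rfl fun S _ => ?_
      push_cast
      rw [← one_div_mul_one_div]; ring
    rw [e1]
    set C := ∑ S ∈ (prm y z).powerset, cf R E S * (1 / (pd S : ℝ)) with hC
    have e2 : |C| ≤ ∏ p ∈ prm y z, (1 + 1 / (p : ℝ)) := by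
      rw [prod_one_add, hC]
      refine (abs_sum_le_sum_abs _ _).trans (sum_le_sum fun S _ => ?_)
      rw [abs_mul, abs_of_nonneg (by positivity : 0 ≤ 1 / (pd S : ℝ))]
      have e3 : ∏ p ∈ S, 1 / (p : ℝ) = 1 / (pd S : ℝ) := by
        unfold pd; push_cast; rw [prod_div_distrib, prod_const_one]
      rw [e3]
      calc |cf R E S| * (1 / (pd S : ℝ)) ≤ 1 * (1 / (pd S : ℝ)) :=
            mul_le_mul_of_nonneg_right (abs_cf_le R E S) (by positivity)
        _ = _ := one_mul _
    have e4 := A_le H (pd E) u hpos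
    have e5 := A_ge H (pd E) u hpos
    have e6 : |(A H (pd E) u : ℝ) - H / pd E| ≤ 1 := by
      rw [abs_le]; constructor <;> linarith
    have e7 : |(-1 : ℝ) ^ E.card * ((A H (pd E) u : ℝ) - H / pd E) * C| ≤
        ∏ p ∈ prm y z, (1 + 1 / (p : ℝ)) := by
      rw [abs_mul, abs_mul, abs_pow, abs_neg, abs_one, one_pow, one_mul]
      calc |(A H (pd E) u : ℝ) - H / pd E| * |C| ≤ 1 * |C| :=
            mul_le_mul_of_nonneg_right e6 (abs_nonneg _)
        _ ≤ _ := by rw [one_mul]; exact e2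
    have e8 := (abs_le.1 e7).1
    have e9 : (-1 : ℝ) ^ E.card * ((A H (pd E) u : ℝ) - H / pd E) * C =
        (-1 : ℝ) ^ E.card * A H (pd E) u * C - H * ((-1 : ℝ) ^ E.card * (1 / (pd E : ℝ) * C)) := by
      ring
    linarith
  have h6 := sum_le_sum h5
  rw [sum_sub_distrib, sum_const, nsmul_eq_mul, ← mul_sum] at h6
  linarith

end Pool.Agent.RG2
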