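import Pool.Agent.RG.Par

/-!
# RG2 / Tup: tuples of sets of primes

Lists of length `K` with entries in a finite set, the linked lists, and the sums of the weights of
the new primes.
-/

set_option autoImplicit false

namespace Pool.Agent.RG2

open Finset

section tup

variable {α : Type*} [DecidableEq α]

/-- the lists of length `K` with entries in `D` -/
def tup (D : Finset α) : ℕ → Finset (List α)
  | 0 => {[]}
  | K + 1 => (D ×ˢ tup D K).image (fun p => p.1 :: p.2)

lemma sum_tup_succ (D : Finset α) (K : ℕ) (f : List α → ℝ) :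
    ∑ t ∈ tup D (K + 1), f t = ∑ S ∈ D, ∑ t ∈ tup D K, f (S :: t) := by
  rw [tup, sum_image, sum_product]
  rintro ⟨a, b⟩ _ ⟨c, d⟩ _ h
  simp only [List.cons.injEq] at h
  rw [h.1, h.2]

lemma mem_tup (D : Finset α) (K : ℕ) (t : List α) :
    t ∈ tup D K ↔ t.length = K ∧ ∀ S ∈ t, S ∈ D := by
  induction K generalizing t with
  | zero =>
    rw [tup, mem_singleton]
    constructor
    · rintro rfl; exact ⟨rfl, by simp⟩
    · rintro ⟨h, _⟩; exact List.length_eq_zero_iff.1 h
  | succ K ih =>
    rw [tup, mem_image]
    constructor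
    · rintro ⟨⟨a, b⟩, h, rfl⟩
      rw [mem_product] at h
      obtain ⟨h1, h2⟩ := h
      obtain ⟨h3, h4⟩ := (ih b).1 h2
      refine ⟨by simp [h3], ?_⟩
      intro S hS
      rcases List.mem_cons.1 hS with h | h
      · rw [h]; exact h1
      · exact h4 S h
    · rintro ⟨h1, h2⟩
      cases t with
      | nil => simp at h1
      | cons a b =>
        refine ⟨(a, b), ?_, rfl⟩
        rw [mem_product]
        refine ⟨h2 a (by simp), (ih b).2 ⟨by simpa using h1, fun S hS => h2 S (by simp [hS])⟩⟩

lemma card_tup (D : Finset α) (K : ℕ) : (tup D K).card = D.card ^ K := by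
  induction K with
  | zero => simp [tup]
  | succ K ih =>
    rw [tup, card_image_of_injective, card_product, ih, pow_succ, mul_comm]
    rintro ⟨a, b⟩ ⟨c, d⟩ h
    simp only [List.cons.injEq] at h
    rw [h.1, h.2]

lemma pow_eq_sum_tup (D : Finset α) (x : α → ℝ) (K : ℕ) :
    (∑ S ∈ D, x S) ^ K = ∑ t ∈ tup D K, (t.map x).prod := by
  induction K with
  | zero => simp [tup]
  | succ K ih =>
    rw [sum_tup_succ, pow_succ, ih, mul_comm, sum_mul]
    refine sum_congr rfl fun S _ => ?_
    rw [mul_sum]
    refine sum_congr rfl fun t _ => ?_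
    rw [List.map_cons, List.prod_cons]

end tup

/-- the union of the sets of a list -/
def un : List (Finset ℕ) → Finset ℕ
  | [] => ∅
  | S :: t => S ∪ un t

/-- the number of entries that meet a later entry -/
def lc : List (Finset ℕ) → ℕ
  | [] => 0
  | S :: t => (if Disjoint S (un t) then 0 else 1) + lc t

/-- the union of the entries that meet a later entry -/
def nn : List (Finset ℕ) → Finset ℕ
  | [] => ∅
  | S :: t => (if Disjoint S (un t) then ∅ else S) ∪ nn t

/-- the product of the reciprocals of the new primes -/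
noncomputable def bp : List (Finset ℕ) → ℝ
  | [] => 1
  | S :: t => (∏ p ∈ S \ un t, 1 / (p : ℝ)) * bp t

lemma un_append (s t : List (Finset ℕ)) : un (s ++ t) = un s ∪ un t := by
  induction s with
  | nil => simp [un]
  | cons S s ih => rw [List.cons_append, un, un, ih, union_assoc]

lemma subset_un {S : Finset ℕ} {t : List (Finset ℕ)} (h : S ∈ t) : S ⊆ un t := by
  induction t with
  | nil => simp at h
  | cons a t ih =>
    rcases List.mem_cons.1 h with h | h
    · rw [h, un]; exact subset_union_left
    · rw [un]; exact (ih h).trans subset_union_right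

lemma card_un (R : ℕ) (t : List (Finset ℕ)) (h : ∀ S ∈ t, S.card ≤ R) :
    (un t).card ≤ R * t.length := by
  induction t with
  | nil => simp [un]
  | cons a t ih =>
    rw [un, List.length_cons, mul_add, mul_one]
    have h1 := card_union_le a (un t)
    have h2 := h a (by simp)
    have h3 := ih fun S hS => h S (by simp [hS])
    omega

lemma card_nn (R : ℕ) (t : List (Finset ℕ)) (h : ∀ S ∈ t, S.card ≤ R) :
    (nn t).card ≤ R * lc t := by
  induction t with
  | nil => simp [nn]
  | cons a t ih =>
    have h3 := ih fun S hS => h S (by simp [hS])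
    have h2 := h a (by simp)
    rw [nn, lc]
    by_cases hd : Disjoint a (un t)
    · rw [if_pos hd, if_pos hd, empty_union, zero_add]; exact h3
    · rw [if_neg hd, if_neg hd, mul_add, mul_one]
      have h1 := card_union_le a (nn t)
      omega

/-- the number of entries disjoint from all later entries is at most `#N` if they all meet `N` -/
lemma fresh_le (N : Finset ℕ) (t : List (Finset ℕ))
    (h : ∀ s S v, t = s ++ S :: v → Disjoint S (un v) → (S ∩ N).Nonempty) :
    t.length ≤ lc t + (N ∩ un t).card := by
  induction t with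
  | nil => simp [lc]
  | cons a t ih =>
    have h3 := ih fun s S v hs hd => h (a :: s) S v (by rw [hs]; rfl) hd
    rw [List.length_cons, lc]
    by_cases hd : Disjoint a (un t)
    · rw [if_pos hd, zero_add]
      have h4 := h [] a t rfl hd
      have h5 : 1 ≤ (a ∩ N).card := h4.card_pos
      have h6 : N ∩ un (a :: t) = (a ∩ N) ∪ (N ∩ un t) := by
        rw [un, inter_union_distrib_left, inter_comm N a]
      have h7 : Disjoint (a ∩ N) (N ∩ un t) :=
        hd.mono inter_subset_left inter_subset_right
      rw [h6, card_union_of_disjoint h7]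
      omega
    · rw [if_neg hd]
      have h6 : (N ∩ un t).card ≤ (N ∩ un (a :: t)).card := by
        apply card_le_card
        rw [un]
        exact inter_subset_inter_left subset_union_right
      omega

lemma subset_nn (s : List (Finset ℕ)) (S : Finset ℕ) (v : List (Finset ℕ))
    (h : ¬ Disjoint S (un v)) : S ⊆ nn (s ++ S :: v) := by
  induction s with
  | nil =>
    rw [List.nil_append, nn, if_neg h]; exact subset_union_left
  | cons a s ih =>
    rw [List.cons_append, nn]; exact ih.trans subset_union_right

/-- every entry meets another entry -/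
def Linked (t : List (Finset ℕ)) : Prop :=
  ∀ s S v, t = s ++ S :: v → Disjoint S (un v) → ¬ Disjoint S (un s)

lemma exists_of_not_disjoint_un {S : Finset ℕ} {t : List (Finset ℕ)} (h : ¬ Disjoint S (un t)) :
    ∃ s T v, t = s ++ T :: v ∧ ¬ Disjoint S T := by
  induction t with
  | nil => simp [un] at h
  | cons a t ih =>
    by_cases ha : Disjoint S a
    · have : ¬ Disjoint S (un t) := by
        intro h2
        apply h
        rw [un, disjoint_union_right]
        exact ⟨ha, h2⟩
      obtain ⟨s, T, v, h1, h2⟩ := ih this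
      exact ⟨a :: s, T, v, by rw [h1]; rfl, h2⟩
    · exact ⟨[], a, t, rfl, ha⟩

lemma length_le_of_linked (R : ℕ) (t : List (Finset ℕ)) (h : ∀ S ∈ t, S.card ≤ R)
    (hl : Linked t) : t.length ≤ (R + 1) * lc t := by
  have h1 := fresh_le (nn t) t ?_
  · have h2 := card_nn R t h
    have h3 : (nn t ∩ un t).card ≤ (nn t).card := card_le_card inter_subset_left
    have h4 : (R + 1) * lc t = R * lc t + lc t := by ring
    omega
  · intro s S v hs hd
    have h2 := hl s S v hs hd
    obtain ⟨s', T, v', h3, h4⟩ := exists_of_not_disjoint_un h2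
    have h5 : T ⊆ nn t := by
      rw [hs, h3, List.append_assoc, List.cons_append]
      apply subset_nn
      intro h6
      apply h4
      rw [un_append, disjoint_union_right] at h6
      exact (h6.2.mono_right (by rw [un]; exact subset_union_left)).symm
    rw [not_disjoint_iff] at h4
    obtain ⟨a, ha1, ha2⟩ := h4
    exact ⟨a, mem_inter.2 ⟨ha1, h5 ha2⟩⟩

/-- number of small subsets -/
lemma card_small (U : Finset ℕ) (R : ℕ) :
    (U.powerset.filter (fun A => A.card ≤ R)).card ≤ (U.card + 1) ^ R := by
  induction U using Finset.induction_on generalizing R with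
  | empty =>
    have : ((∅ : Finset ℕ).powerset.filter (fun A => A.card ≤ R)).card ≤ 1 := by
      refine (card_filter_le _ _).trans ?_
      simp
    simpa using this
  | insert a s ha ih =>
    rcases R with _ | R
    · have : ((insert a s).powerset.filter (fun A => A.card ≤ 0)) ⊆ {∅} := by
        intro A hA
        rw [mem_filter] at hA
        rw [mem_singleton]
        exact card_eq_zero.1 (Nat.le_zero.1 hA.2)
      simpa using card_le_card this
    · have h1 : ((insert a s).powerset.filter (fun A => A.card ≤ R + 1)) ⊆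
          (s.powerset.filter (fun A => A.card ≤ R + 1)) ∪
          ((s.powerset.filter (fun A => A.card ≤ R)).image (insert a)) := by
        intro A hA
        rw [mem_filter, mem_powerset] at hA
        rw [mem_union, mem_filter, mem_powerset, mem_image]
        by_cases haA : a ∈ A
        · right
          refine ⟨A.erase a, ?_, insert_erase haA⟩
          rw [mem_filter, mem_powerset]
          refine ⟨?_, ?_⟩
          · intro x hx
            rw [mem_erase] at hx
            exact (mem_insert.1 (hA.1 hx.2)).resolve_left hx.1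
          · rw [card_erase_of_mem haA]; omega
        · left
          refine ⟨?_, hA.2⟩
          intro x hx
          refine (mem_insert.1 (hA.1 hx)).resolve_left ?_
          rintro rfl; exact haA hx
      have h2 := (card_le_card h1).trans (card_union_le _ _)
      have h3 : ((s.powerset.filter (fun A => A.card ≤ R)).image (insert a)).card ≤
          (s.card + 1) ^ R := card_image_le.trans (ih R)
      have h4 := ih (R + 1)
      rw [card_insert_of_notMem ha]
      have h5 : (s.card + 1) ^ (R + 1) + (s.card + 1) ^ R ≤ (s.card + 1 + 1) ^ (R + 1) := by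
        have h6 : (s.card + 1) ^ R ≤ (s.card + 1 + 1) ^ R :=
          Nat.pow_le_pow_left (by omega) R
        calc (s.card + 1) ^ (R + 1) + (s.card + 1) ^ R = (s.card + 1) ^ R * (s.card + 1 + 1) := by
              ring
          _ ≤ (s.card + 1 + 1) ^ R * (s.card + 1 + 1) := Nat.mul_le_mul_right _ h6
          _ = _ := by ring
      omega

/-- the sum over one entry -/
lemma sum_entry (P U : Finset ℕ) (R n : ℕ) (hU : U.card ≤ n) :
    ∑ S ∈ P.powerset.filter (fun S => 1 ≤ S.card ∧ S.card ≤ R), ∏ p ∈ S \ U, 1 / (p : ℝ) ≤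
      (n + 1 : ℝ) ^ R * ∏ p ∈ P, (1 + 1 / (p : ℝ)) := by
  classical
  set D := P.powerset.filter (fun S => 1 ≤ S.card ∧ S.card ≤ R)
  have hinj : Set.InjOn (fun S : Finset ℕ => (S ∩ U, S \ U)) D := by
    intro A _ B _ h
    simp only [Prod.mk.injEq] at h
    rw [← sdiff_union_inter A U, ← sdiff_union_inter B U, h.1, h.2]
  have h1 : ∑ S ∈ D, ∏ p ∈ S \ U, 1 / (p : ℝ) =
      ∑ q ∈ D.image (fun S : Finset ℕ => (S ∩ U, S \ U)), ∏ p ∈ q.2, 1 / (p : ℝ) := by
    rw [sum_image hinj]
  rw [h1]
  have h2 : D.image (fun S : Finset ℕ => (S ∩ U, S \ U)) ⊆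
      (U.powerset.filter (fun A => A.card ≤ R)) ×ˢ P.powerset := by
    intro q hq
    rw [mem_image] at hq
    obtain ⟨S, hS, rfl⟩ := hq
    rw [mem_filter, mem_powerset] at hS
    rw [mem_product, mem_filter, mem_powerset, mem_powerset]
    refine ⟨⟨inter_subset_right, ?_⟩, sdiff_subset.trans hS.1⟩
    exact (card_le_card inter_subset_left).trans hS.2.2
  refine (sum_le_sum_of_subset_of_nonneg h2 fun q _ _ => prod_nonneg fun p _ => by positivity).trans ?_
  have h3 : ∑ B ∈ P.powerset, ∏ p ∈ B, 1 / (p : ℝ) = ∏ p ∈ P, (1 + 1 / (p : ℝ)) := by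
    rw [prod_one_add]
  rw [sum_product]
  simp only [h3]
  rw [sum_const, nsmul_eq_mul]
  apply mul_le_mul_of_nonneg_right _ (prod_nonneg fun p _ => by positivity)
  have h4 := card_small U R
  have h5 : (U.card + 1) ^ R ≤ (n + 1) ^ R := Nat.pow_le_pow_left (by omega) R
  exact_mod_cast h4.trans h5

lemma bp_nonneg (t : List (Finset ℕ)) : 0 ≤ bp t := by
  induction t with
  | nil => simp [bp]
  | cons S t ih => rw [bp]; exact mul_nonneg (prod_nonneg fun p _ => by positivity) ih

lemma sum_bp (P : Finset ℕ) (R n K : ℕ) (hK : R * K ≤ n) :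
    ∑ t ∈ tup (P.powerset.filter (fun S => 1 ≤ S.card ∧ S.card ≤ R)) K, bp t ≤
      ((n + 1 : ℝ) ^ R * ∏ p ∈ P, (1 + 1 / (p : ℝ))) ^ K := by
  induction K with
  | zero => simp [tup, bp]
  | succ K ih =>
    rw [sum_tup_succ, sum_comm]
    have h0 : R * K ≤ n := le_trans (Nat.mul_le_mul_left R (by omega)) hK
    have ih' := ih h0
    have hG : 0 ≤ (n + 1 : ℝ) ^ R * ∏ p ∈ P, (1 + 1 / (p : ℝ)) :=
      mul_nonneg (by positivity) (prod_nonneg fun p _ => by positivity)
    calc ∑ t ∈ tup (P.powerset.filter (fun S => 1 ≤ S.card ∧ S.card ≤ R)) K,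
          ∑ S ∈ P.powerset.filter (fun S => 1 ≤ S.card ∧ S.card ≤ R), bp (S :: t)
        ≤ ∑ t ∈ tup (P.powerset.filter (fun S => 1 ≤ S.card ∧ S.card ≤ R)) K,
          ((n + 1 : ℝ) ^ R * ∏ p ∈ P, (1 + 1 / (p : ℝ))) * bp t := by
          refine sum_le_sum fun t ht => ?_
          rw [mem_tup] at ht
          have h1 : (un t).card ≤ n := by
            refine (card_un R t fun S hS => ?_).trans ?_
            · exact (mem_filter.1 (ht.2 S hS)).2.2
            · rw [ht.1]; exact h0
          have h2 := sum_entry P (un t) R n h1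
          simp only [bp]
          rw [← sum_mul]
          exact mul_le_mul_of_nonneg_right h2 (bp_nonneg t)
      _ = ((n + 1 : ℝ) ^ R * ∏ p ∈ P, (1 + 1 / (p : ℝ))) *
          ∑ t ∈ tup (P.powerset.filter (fun S => 1 ≤ S.card ∧ S.card ≤ R)) K, bp t := by
          rw [mul_sum]
      _ ≤ _ := by
          rw [pow_succ, mul_comm]
          exact mul_le_mul_of_nonneg_right ih' hG

end Pool.Agent.RG2
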