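import Pool.Agent.RG2.Asy

/-!
# RG2 / UpL: short intervals without rough integers are rare, upper half for long windows
-/

set_option autoImplicit false

namespace Pool.Agent.RG2

open Finset Real Filter Topology Pool.Agent.RG

lemma rough_iff (θ l : ℝ) (m : ℕ) :
    Rough (exp (l ^ θ)) m ↔ ∀ p ∈ prm 0 (Zn θ l), ¬ p ∣ m := by
  unfold Rough Zn
  constructor
  · intro h p hp
    rw [mem_prm] at hp
    exact h p hp.2 ((Nat.le_floor_iff (exp_pos _).le).1 hp.1.2)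
  · intro h p hp hpz
    exact h p (mem_prm.2 ⟨⟨hp.pos, Nat.le_floor hpz⟩, hp⟩)

open Classical in
lemma dens_count (θ l L g : ℝ) (H X : ℕ) (hH : (H : ℝ) ≤ g) :
    ((Icc 1 X).filter (fun n : ℕ => ¬ Dens (exp (l ^ θ)) L g n)).card ≤
      (⌊L⌋₊ + 1) * ((range (X + ⌊L⌋₊ + 1)).filter (fun u => NN (Zn θ l) H u = 0)).card := by
  have h1 : ((Icc 1 X).filter (fun n : ℕ => ¬ Dens (exp (l ^ θ)) L g n)) ⊆
      (range (⌊L⌋₊ + 1)).biUnion (fun s => (Icc 1 X).filter
        (fun n => NN (Zn θ l) H (n + s) = 0)) := by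
    intro n hn
    rw [mem_filter] at hn
    obtain ⟨hn1, hn2⟩ := hn
    unfold Dens at hn2
    push Not at hn2
    obtain ⟨s, hs, hs2⟩ := hn2
    rw [mem_biUnion]
    refine ⟨s, mem_range.2 (Nat.lt_succ_of_le (Nat.le_floor hs)), ?_⟩
    rw [mem_filter]
    refine ⟨hn1, ?_⟩
    unfold NN
    rw [card_eq_zero, filter_eq_empty_iff]
    intro h hh hcon
    rw [mem_range] at hh
    have hh2 : (h : ℝ) < H := by exact_mod_cast hh
    apply hs2 (s + h) (by omega) (by push_cast; linarith)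
    rw [rough_iff]
    intro p hp
    have := hcon p hp
    rwa [add_assoc] at this
  refine (card_le_card h1).trans (card_biUnion_le.trans ?_)
  refine (sum_le_card_nsmul _ _
    ((range (X + ⌊L⌋₊ + 1)).filter (fun u => NN (Zn θ l) H u = 0)).card ?_).trans
    (by rw [card_range, smul_eq_mul])
  intro s hs
  rw [mem_range] at hs
  refine card_le_card_of_injOn (fun n => n + s) ?_ (fun a _ b _ h => by simpa using h)
  intro n hn
  rw [mem_coe, mem_filter, mem_Icc] at hn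
  rw [mem_coe, mem_filter, mem_range]
  refine ⟨?_, hn.2⟩
  show n + s < _
  omega

open Classical in
/-- Almost every window `[n, n + exp (c (log X)^γ)]` has no gap longer than `exp ((log X)^a)`, if
`a > max 0 (θ + γ - 1)`. -/
theorem dens_long (θ γ a c : ℝ) (hθ0 : 0 < θ) (hθ1 : θ < 1) (hγ0 : 0 < γ) (hγ1 : γ < 1)
    (ha0 : 0 < a) (haγ : θ + γ - 1 < a) (hc : 0 < c) :
    Tendsto (fun X : ℕ => (((Icc 1 X).filter (fun n : ℕ =>
      ¬ Dens (exp (log X ^ θ)) (exp (c * log X ^ γ)) (exp (log X ^ a)) n)).card : ℝ) / X)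
      atTop (𝓝 0) := by
  obtain ⟨a', ha'0, ha'a, ha'θ, ha'γ⟩ : ∃ a' : ℝ, 0 < a' ∧ a' ≤ a ∧ a' < θ ∧ θ + γ - 1 < a' := by
    refine ⟨(max 0 (θ + γ - 1) + min a θ) / 2, ?_, ?_, ?_, ?_⟩
    all_goals
      have m1 : max 0 (θ + γ - 1) < min a θ :=
        max_lt (lt_min ha0 hθ0) (lt_min haγ (by linarith))
      have m2 := le_max_left 0 (θ + γ - 1)
      have m3 := le_max_right 0 (θ + γ - 1)
      have m4 := min_le_left a θ
      have m5 := min_le_right a θ
      linarith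
  obtain ⟨g, hg, hbad⟩ := bad_small θ γ a' hθ1 ha'0 ha'θ ha'γ
  have hlog : Tendsto (fun X : ℕ => log (X : ℝ)) atTop atTop :=
    tendsto_log_atTop.comp tendsto_natCast_atTop_atTop
  have a1 := asy0 γ 1 (2 * (c + 1)) hγ1
  have a2 := asy0 γ g (c + 1) hg
  have a3 := asy0 γ 1 (c + 1) hγ1
  have a4 : ∀ᶠ l : ℝ in atTop, 1 ≤ l ^ γ := (tendsto_rpow_atTop hγ0).eventually_ge_atTop 1
  have hlim : Tendsto (fun X : ℕ => 10 * exp (-(log (X : ℝ)) ^ γ)) atTop (𝓝 0) := by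
    have e1 : Tendsto (fun x : ℝ => 10 * exp (-x ^ γ)) atTop (𝓝 0) := by
      have := (tendsto_exp_neg_atTop_nhds_zero.comp (tendsto_rpow_atTop hγ0)).const_mul 10
      simpa using this
    exact e1.comp hlog
  refine squeeze_zero' (Eventually.of_forall fun X => by positivity) ?_ hlim
  filter_upwards [hlog.eventually hbad, hlog.eventually a1, hlog.eventually a2,
    hlog.eventually a3, hlog.eventually a4, hlog.eventually_ge_atTop 1, eventually_ge_atTop 1]
    with X k0 k1 k2 k3 k4 k5 k6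
  have hX0 : (0 : ℝ) < X := by exact_mod_cast k6
  have hexp : exp (log (X : ℝ)) = X := exp_log hX0
  set l := log (X : ℝ) with hl
  rw [rpow_one] at k1 k3
  set L := exp (c * l ^ γ) with hLd
  have hL1 : 1 ≤ L := one_le_exp (by positivity)
  have hH : ((⌊exp (l ^ a')⌋₊ : ℕ) : ℝ) ≤ exp (l ^ a) :=
    (floor_exp_le _).trans (exp_le_exp.2 (rpow_le_rpow_of_exponent_le k5 ha'a))
  have hcount := dens_count θ l L (exp (l ^ a)) ⌊exp (l ^ a')⌋₊ X hH
  have hfl : ((⌊L⌋₊ : ℕ) : ℝ) ≤ L := Nat.floor_le (exp_pos _).le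
  have hL2 : L + 1 ≤ X := by
    have e1 : L * exp 1 ≤ X := by
      rw [← hexp, hLd, ← exp_add]
      exact exp_le_exp.2 (by linarith)
    have e2 : (2 : ℝ) ≤ exp 1 := by have := add_one_le_exp (1 : ℝ); linarith
    nlinarith
  have hX2 : ((X + ⌊L⌋₊ + 1 : ℕ) : ℝ) ≤ 2 * X := by push_cast; linarith
  have hb := k0 (X + ⌊L⌋₊ + 1) (by rw [hexp]; push_cast; linarith [(Nat.cast_nonneg ⌊L⌋₊ : (0:ℝ) ≤ _)])
  have hb2 : (((range (X + ⌊L⌋₊ + 1)).filter
      (fun u => NN (Zn θ l) ⌊exp (l ^ a')⌋₊ u = 0)).card : ℝ) ≤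
      X * (exp (-(l / 2)) + 4 * exp (-(l ^ g))) := by
    refine hb.trans ?_
    have e1 : exp (l / 2) = X * exp (-(l / 2)) := by
      rw [← hexp, ← exp_add]; congr 1; ring
    have e2 := mul_le_mul_of_nonneg_right hX2 (exp_pos (-(l ^ g))).le
    rw [e1]
    linarith
  have hcount' : ((((Icc 1 X).filter (fun n : ℕ => ¬ Dens (exp (l ^ θ)) L
      (exp (l ^ a)) n)).card : ℕ) : ℝ) ≤
      (L + 1) * (X * (exp (-(l / 2)) + 4 * exp (-(l ^ g)))) := by
    calc ((((Icc 1 X).filter (fun n : ℕ => ¬ Dens (exp (l ^ θ)) L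
      (exp (l ^ a)) n)).card : ℕ) : ℝ) ≤ (((⌊L⌋₊ + 1) * ((range (X + ⌊L⌋₊ + 1)).filter
        (fun u => NN (Zn θ l) ⌊exp (l ^ a')⌋₊ u = 0)).card : ℕ) : ℝ) := by exact_mod_cast hcount
      _ ≤ _ := by
        push_cast
        apply mul_le_mul (by linarith) _ (Nat.cast_nonneg _) (by linarith)
        exact_mod_cast hb2
  rw [div_le_iff₀ hX0]
  refine hcount'.trans ?_
  have e3 : L * exp (-(l / 2)) ≤ exp (-l ^ γ) := by
    rw [hLd, ← exp_add]; exact exp_le_exp.2 (by linarith)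
  have e4 : L * exp (-(l ^ g)) ≤ exp (-l ^ γ) := by
    rw [hLd, ← exp_add]; exact exp_le_exp.2 (by linarith)
  have e5 : (L + 1) * (exp (-(l / 2)) + 4 * exp (-(l ^ g))) ≤ 10 * exp (-l ^ γ) := by
    have p1 := exp_pos (-(l / 2))
    have p2 := exp_pos (-(l ^ g))
    calc (L + 1) * (exp (-(l / 2)) + 4 * exp (-(l ^ g))) ≤
          (2 * L) * (exp (-(l / 2)) + 4 * exp (-(l ^ g))) :=
          mul_le_mul_of_nonneg_right (by linarith) (by positivity)
      _ = 2 * (L * exp (-(l / 2))) + 8 * (L * exp (-(l ^ g))) := by ring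
      _ ≤ _ := by linarith
  calc (L + 1) * (X * (exp (-(l / 2)) + 4 * exp (-(l ^ g)))) =
        ((L + 1) * (exp (-(l / 2)) + 4 * exp (-(l ^ g)))) * X := by ring
    _ ≤ _ := mul_le_mul_of_nonneg_right e5 hX0.le

end Pool.Agent.RG2
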