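import Pool.Agent.RG2.Cnt
import Pool.Agent.RG.Mer

/-!
# RG2 / Vl: bounds for the products over primes
-/

set_option autoImplicit false

namespace Pool.Agent.RG2

open Finset Real Filter Pool.Agent.RG

/-- the sum of the reciprocals of the primes up to `z` -/
noncomputable def Lz (z : ℕ) : ℝ := ∑ p ∈ prm 0 z, 1 / (p : ℝ)

lemma prod_le_exp (P : Finset ℕ) : ∏ p ∈ P, (1 + 1 / (p : ℝ)) ≤ exp (∑ p ∈ P, 1 / (p : ℝ)) := by
  rw [exp_sum]
  refine prod_le_prod (fun p _ => by positivity) fun p _ => ?_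
  rw [add_comm]
  exact add_one_le_exp _

lemma W_le (y z : ℕ) (h : y ≤ z) : ∏ p ∈ prm 0 y, (1 + 1 / (p : ℝ)) ≤ exp (Lz z) := by
  refine (prod_le_exp _).trans (exp_le_exp.2 ?_)
  unfold Lz
  apply sum_le_sum_of_subset_of_nonneg
  · rw [prm_union y z h]; exact subset_union_left
  · intro p _ _; positivity

lemma G_le (y z : ℕ) (h : y ≤ z) : ∏ p ∈ prm y z, (1 + 1 / (p : ℝ)) ≤ exp (Lz z) := by
  refine (prod_le_exp _).trans (exp_le_exp.2 ?_)
  unfold Lz
  apply sum_le_sum_of_subset_of_nonneg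
  · rw [prm_union y z h]; exact subset_union_right
  · intro p _ _; positivity

lemma one_sub_ge (x : ℝ) (h0 : 0 ≤ x) (h1 : x ≤ 1 / 2) : exp (-2 * x) ≤ 1 - x := by
  have h2 : (0 : ℝ) < 1 - x := by linarith
  have h3 : 1 ≤ (1 - x) * exp (2 * x) := by
    have h4 : 1 + 2 * x ≤ exp (2 * x) := by
      have := add_one_le_exp (2 * x); linarith
    nlinarith
  have h5 : exp (-2 * x) = (exp (2 * x))⁻¹ := by
    rw [← exp_neg]; congr 1; ring
  rw [h5, inv_le_iff_one_le_mul₀ (exp_pos _)]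
  exact h3

lemma prod_ge (z : ℕ) : exp (-2 * Lz z) ≤ ∏ p ∈ prm 0 z, (1 - 1 / (p : ℝ)) := by
  unfold Lz
  rw [mul_sum, exp_sum]
  refine prod_le_prod (fun p _ => (exp_pos _).le) fun p hp => ?_
  have h2 : (2 : ℝ) ≤ p := by exact_mod_cast (mem_prm.1 hp).2.two_le
  apply one_sub_ge
  · positivity
  · exact one_div_le_one_div_of_le (by norm_num) h2

lemma pd_one_div (T : Finset ℕ) : ∏ p ∈ T, 1 / (p : ℝ) = 1 / (pd T : ℝ) := by
  unfold pd; push_cast; rw [prod_div_distrib, prod_const_one]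

lemma Vt_ge (z R : ℕ) (hR : Odd R) :
    exp (-2 * Lz z) - exp (8 * Lz z - 2 * (R + 1)) ≤ Vt z R := by
  have h1 := prod_even (prm 0 z) (fun p => 1 / (p : ℝ)) (fun p hp => ⟨by positivity, by
    have h2 : (2 : ℝ) ≤ p := by exact_mod_cast (mem_prm.1 hp).2.two_le
    rw [div_le_one (by linarith)]; linarith⟩) (R + 1) hR.add_one
  have h2 : ∑ S ∈ (prm 0 z).powerset.filter (fun S => S.card ≤ R + 1),
      (-1 : ℝ) ^ S.card * ∏ p ∈ S, 1 / (p : ℝ) =
      Vt z R + ∑ S ∈ (prm 0 z).powersetCard (R + 1), ∏ p ∈ S, 1 / (p : ℝ) := by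
    unfold Vt
    have h3 : (prm 0 z).powerset.filter (fun S => S.card ≤ R + 1) =
        (prm 0 z).powerset.filter (fun S => S.card ≤ R) ∪ (prm 0 z).powersetCard (R + 1) := by
      ext S
      simp only [mem_filter, mem_union, mem_powersetCard, mem_powerset]
      constructor
      · rintro ⟨h4, h5⟩
        rcases Nat.lt_or_ge S.card (R + 1) with h6 | h6
        · left; exact ⟨h4, by omega⟩
        · right; exact ⟨h4, by omega⟩
      · rintro (⟨h4, h5⟩ | ⟨h4, h5⟩)
        · exact ⟨h4, by omega⟩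
        · exact ⟨h4, by omega⟩
    have h4 : Disjoint ((prm 0 z).powerset.filter (fun S => S.card ≤ R))
        ((prm 0 z).powersetCard (R + 1)) := by
      rw [disjoint_left]
      intro S h5 h6
      rw [mem_filter] at h5
      rw [mem_powersetCard] at h6
      omega
    rw [h3, sum_union h4]
    congr 1
    · exact sum_congr rfl fun S _ => by rw [pd_one_div]
    · refine sum_congr rfl fun S hS => ?_
      rw [mem_powersetCard] at hS
      rw [hS.2, hR.add_one.neg_one_pow, one_mul]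
  rw [h2] at h1
  have h3 := prod_ge z
  have h4 := esymm_le (prm 0 z) (fun p => 1 / (p : ℝ)) (fun p _ => by positivity) (R + 1)
  have hL0 : 0 ≤ Lz z := sum_nonneg fun p _ => by positivity
  have h5 : (Lz z) ^ (R + 1) / ((R + 1).factorial : ℝ) ≤ exp (8 * Lz z - 2 * (R + 1)) := by
    have h6 := pow_div_factorial_le_exp (exp 2 * Lz z) (by positivity) (R + 1)
    rw [mul_pow, mul_div_assoc] at h6
    have h7 : exp 2 ^ (R + 1) = exp (2 * (R + 1)) := by
      rw [← exp_nat_mul]; congr 1; push_cast; ring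
    rw [h7] at h6
    have h8 : exp 2 * Lz z ≤ 8 * Lz z := by
      apply mul_le_mul_of_nonneg_right _ hL0
      have h9 : exp (1 : ℝ) < 2.7182818286 := exp_one_lt_d9
      have h10 : exp (2 : ℝ) = exp 1 * exp 1 := by rw [← exp_add]; norm_num
      rw [h10]
      have h11 := exp_pos (1 : ℝ)
      nlinarith
    rw [sub_eq_add_neg, exp_add, ← div_le_iff₀ (exp_pos _)]
    rw [exp_neg, div_inv_eq_mul]
    calc _ = exp (2 * (R + 1)) * ((Lz z) ^ (R + 1) / ((R + 1).factorial : ℝ)) := by ring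
      _ ≤ exp (exp 2 * Lz z) := h6
      _ ≤ _ := exp_le_exp.2 h8
  have h6 : (∑ p ∈ prm 0 z, 1 / (p : ℝ)) = Lz z := rfl
  rw [h6] at h4
  linarith

theorem Lz_le : ∃ C : ℝ, ∀ z : ℕ, 2 ≤ z → Lz z ≤ C + log (log z) := by
  obtain ⟨C, hC, h⟩ := recip_bounds
  refine ⟨1 / 2 + C / log 2 - log (log 2), ?_⟩
  intro z hz
  have h1 := h 2 z le_rfl hz
  rw [abs_le] at h1
  have h2 : Lz z = ∑ p ∈ prm 0 2, 1 / (p : ℝ) + ∑ p ∈ prm 2 z, 1 / (p : ℝ) := by
    unfold Lz
    rw [prm_union 2 z hz, sum_union (prm_disjoint 2 z)]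
  have h3 : prm 0 2 = {2} := by decide
  rw [h3, sum_singleton] at h2
  push_cast at h1 h2
  linarith [h1.2]

end Pool.Agent.RG2
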